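import Pool.Agent.Helper59.RL.Torus
import Pool.Agent.Helper19.AAR.SCdeg

/-!
# RL-4: free sets of Frobenius eigenvalues
-/

open Polynomial Finset

namespace Pool.Agent.Helper59.RL

open Pool.Agent.Helper84.LM (InfSim InLie)
open Pool.Agent.Helper19.AAR (splitF)
open Pool.Agent.Helper19.SC (croots mem_croots)

/-- A semisimple endomorphism has an eigenbasis. -/
theorem exists_basis {V : Type} [AddCommGroup V] [Module ℂ V] [FiniteDimensional ℂ V]
    (γ : Module.End ℂ V) (hγ : γ.IsSemisimple) :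
    ∃ (κ : Type) (_ : Fintype κ) (b : Module.Basis κ ℂ V) (z : κ → ℂ), ∀ i, γ (b i) = z i • b i := by
  classical
  have h1 : ⨆ μ : ℂ, γ.eigenspace μ = ⊤ := by
    have h2 := Module.End.iSup_maxGenEigenspace_eq_top γ
    simpa only [hγ.isFinitelySemisimple.maxGenEigenspace_eq_eigenspace] using h2
  let E : Set V := {v | ∃ w : ℂ, γ v = w • v}
  have hE : Submodule.span ℂ E = ⊤ := by
    rw [eq_top_iff, ← h1]
    apply iSup_le
    intro μ v hv
    exact Submodule.subset_span ⟨μ, Module.End.mem_eigenspace_iff.1 hv⟩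
  obtain ⟨s, hs, hspan, hli⟩ := exists_linearIndependent ℂ E
  rw [hE] at hspan
  let b : Module.Basis s ℂ V := Module.Basis.mk hli (by rw [Subtype.range_coe, hspan])
  have hb : ∀ i : s, b i = i := fun i => by rw [Module.Basis.mk_apply]
  have hfin : Finite s := Module.Finite.finite_basis b
  have hfty : Fintype s := Fintype.ofFinite s
  choose z hz using fun i : s => hs i.2
  exact ⟨s, hfty, b, z, fun i => by rw [hb]; exact hz i⟩

/-- The characteristic polynomial in an eigenbasis. -/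
theorem charpoly_eq {V : Type} [AddCommGroup V] [Module ℂ V] [FiniteDimensional ℂ V]
    (γ : Module.End ℂ V) {κ : Type} [Fintype κ] (b : Module.Basis κ ℂ V) (z : κ → ℂ)
    (hb : ∀ i, γ (b i) = z i • b i) : γ.charpoly = ∏ i, (X - C (z i)) := by
  classical
  rw [← LinearMap.charpoly_toMatrix γ b]
  have h1 : LinearMap.toMatrix b b γ = Matrix.diagonal z := by
    ext i j
    rw [LinearMap.toMatrix_apply, hb, map_smul, Finsupp.smul_apply, Module.Basis.repr_self,
      smul_eq_mul]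
    by_cases hij : j = i
    · rw [hij, Finsupp.single_eq_same, mul_one, Matrix.diagonal_apply_eq]
    · rw [Finsupp.single_eq_of_ne (Ne.symm hij), mul_zero, Matrix.diagonal_apply_ne _ (Ne.symm hij)]
  have h2 : Matrix.charmatrix (Matrix.diagonal z) = Matrix.diagonal fun i => (X - C (z i)) := by
    ext i j : 2
    by_cases hij : i = j
    · rw [hij, Matrix.charmatrix_apply_eq, Matrix.diagonal_apply_eq, Matrix.diagonal_apply_eq]
    · rw [Matrix.charmatrix_apply_ne _ _ _ hij, Matrix.diagonal_apply_ne _ hij,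
        Matrix.diagonal_apply_ne _ hij, C_0, neg_zero]
  rw [h1, Matrix.charpoly, h2, Matrix.det_diagonal]

/-- **Free sets of eigenvalues.** -/
theorem liftZ {q N : ℕ} (hq : 2 ≤ q) (hN : N ≠ 0) (𝒵 : Finset ℂ) (R : ℤ[X]) (hR : R ≠ 0)
    (hZinv : ∀ z ∈ 𝒵, (q : ℂ) / z ∈ 𝒵)
    (hZne : ∀ z ∈ 𝒵, (q : ℂ) / z ≠ z) (hZinj : ∀ z ∈ 𝒵, ∀ z' ∈ 𝒵, z ^ N = z' ^ N → z = z')
    (hrelF : ∀ n : ℂ → ℤ, (∏ z ∈ 𝒵, z ^ n z) ^ N ∈ splitF R → ∀ z ∈ 𝒵, n z = n (q / z))
    {V : Type} [AddCommGroup V] [Module ℂ V] [FiniteDimensional ℂ V]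
    (ψ : LinearMap.BilinForm ℂ V) (hnd : ψ.Nondegenerate) (halt : ∀ x, ψ x x = 0)
    (γ : (Module.End ℂ V)ˣ) (hγss : (γ : Module.End ℂ V).IsSemisimple)
    (hmult : ∀ x y, ψ ((γ : Module.End ℂ V) x) ((γ : Module.End ℂ V) y) = (q : ℂ) ^ N * ψ x y)
    (hchar : (γ : Module.End ℂ V).charpoly =
      (∏ z ∈ 𝒵, (X - C (z ^ N))) * R.map (Int.castRingHom ℂ))
    (G : Subgroup (Module.End ℂ V)ˣ)
    (hG : ∀ g ∈ G, ∃ c : ℂ, ∀ x y, ψ ((g : Module.End ℂ V) x) ((g : Module.End ℂ V) y) = c * ψ x y)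
    (hγ : γ ∈ G)
    (hss : ∀ U : Submodule ℂ V, (∀ X, InLie G X → ∀ u ∈ U, X u ∈ U) →
      ∃ U' : Submodule ℂ V, (∀ X, InLie G X → ∀ u ∈ U', X u ∈ U') ∧ IsCompl U U') :
    IsCompl (Part G {v | ∃ z ∈ 𝒵, (γ : Module.End ℂ V) v = z ^ N • v})
      (orth ψ (Part G {v | ∃ z ∈ 𝒵, (γ : Module.End ℂ V) v = z ^ N • v})) ∧
    ∀ X : Module.End ℂ V, InLie G X ↔ InfSim ψ X ∧
      (∀ Y : Module.End ℂ V, (∀ Z, InLie G Z → Y * Z = Z * Y) → X * Y = Y * X) ∧
      ∃ Z, InLie G Z ∧
        ∀ v ∈ orth ψ (Part G {v | ∃ z ∈ 𝒵, (γ : Module.End ℂ V) v = z ^ N • v}), X v = Z v := by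
  classical
  obtain ⟨κ, _, b, z, hb⟩ := exists_basis (γ : Module.End ℂ V) hγss
  have hch := charpoly_eq (γ : Module.End ℂ V) b z hb
  rw [hchar] at hch
  have hqC : (q : ℂ) ≠ 0 := by exact_mod_cast (by omega : q ≠ 0)
  have hZ0 : ∀ w ∈ 𝒵, w ≠ 0 := by
    rintro w hw rfl
    exact hZne 0 hw (div_zero _)
  -- roots of `R` are not in the free part
  have hZR : ∀ w ∈ 𝒵, w ^ N ∉ croots R := by
    intro w hw hmem
    have h1 : w ^ N ∈ splitF R := by
      rw [splitF]
      exact IntermediateField.subset_adjoin _ _ ((mem_croots hR).1 hmem)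
    have h2 : (∏ z ∈ 𝒵, z ^ (fun u : ℂ => if u = w then (1 : ℤ) else 0) z) = w := by
      rw [Finset.prod_eq_single w]
      · simp
      · intro u _ hu
        simp [hu]
      · intro h
        exact absurd hw h
    have h3 := hrelF (fun u => if u = w then 1 else 0) (by rw [h2]; exact h1) w hw
    simp only [if_true] at h3
    rw [if_neg (hZne w hw)] at h3
    exact one_ne_zero h3
  -- the multiset of the eigenvalues
  have hroots : (Finset.univ.val.map z : Multiset ℂ) =
      (𝒵.val.map fun u => u ^ N) + (R.map (Int.castRingHom ℂ)).roots := by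
    have h1 : (∏ i, (X - C (z i))).roots = Finset.univ.val.map z := by
      have e : (Finset.univ.val.map fun i => (X - C (z i) : ℂ[X])) =
          (Finset.univ.val.map z).map fun a => X - C a := by
        rw [Multiset.map_map]
        rfl
      rw [Finset.prod_eq_multiset_prod, e, roots_multiset_prod_X_sub_C]
    have h2 : (∏ u ∈ 𝒵, (X - C (u ^ N)) : ℂ[X]).roots = 𝒵.val.map fun u => u ^ N := by
      have e : (𝒵.val.map fun u => (X - C (u ^ N) : ℂ[X])) =
          (𝒵.val.map fun u => u ^ N).map fun a => X - C a := by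
        rw [Multiset.map_map]
        rfl
      rw [Finset.prod_eq_multiset_prod, e, roots_multiset_prod_X_sub_C]
    have hR0 : R.map (Int.castRingHom ℂ) ≠ 0 :=
      (Polynomial.map_ne_zero_iff (Int.castRingHom ℂ).injective_int).2 hR
    have h3 : (∏ u ∈ 𝒵, (X - C (u ^ N)) : ℂ[X]) ≠ 0 :=
      Finset.prod_ne_zero_iff.2 fun u _ => X_sub_C_ne_zero _
    rw [← h1, ← hch, roots_mul (mul_ne_zero h3 hR0), h2]
  have hcase : ∀ i, (∃ u ∈ 𝒵, z i = u ^ N) ∨ z i ∈ croots R := by
    intro i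
    have h1 : z i ∈ (Finset.univ.val.map z : Multiset ℂ) :=
      Multiset.mem_map_of_mem z (Finset.mem_univ_val i)
    rw [hroots, Multiset.mem_add, Multiset.mem_map] at h1
    rcases h1 with ⟨u, hu, h⟩ | h
    · exact Or.inl ⟨u, hu, h.symm⟩
    · right
      rw [croots, Multiset.mem_toFinset]
      exact h
  -- the free part is simple
  have hidx : ∀ u ∈ 𝒵, ∃! i, z i = u ^ N := by
    intro u hu
    have h1 : (Finset.univ.val.map z : Multiset ℂ).count (u ^ N) = 1 := by
      rw [hroots, Multiset.count_add]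
      have h2 : (𝒵.val.map fun u => u ^ N).count (u ^ N) = 1 := by
        apply Multiset.count_eq_one_of_mem
        · exact (Multiset.nodup_map_iff_inj_on 𝒵.nodup).2 fun x hx y hy h => hZinj x hx y hy h
        · exact Multiset.mem_map_of_mem _ hu
      have h3 : ((R.map (Int.castRingHom ℂ)).roots).count (u ^ N) = 0 := by
        rw [Multiset.count_eq_zero]
        intro h
        exact hZR u hu (by rw [croots, Multiset.mem_toFinset]; exact h)
      rw [h2, h3]
    rw [Multiset.count_map] at h1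
    have h2 : (Finset.univ.filter fun i => u ^ N = z i).card = 1 := h1
    obtain ⟨i, hi⟩ := Finset.card_eq_one.1 h2
    have h3 : ∀ j, z j = u ^ N ↔ j = i := by
      intro j
      have h4 : j ∈ Finset.univ.filter (fun i => u ^ N = z i) ↔ j = i := by
        rw [hi, Finset.mem_singleton]
      rw [← h4, Finset.mem_filter]
      exact ⟨fun h => ⟨Finset.mem_univ _, h.symm⟩, fun h => h.2.symm⟩
    exact ⟨i, (h3 i).2 rfl, fun j hj => (h3 j).1 hj⟩
  have hset : {v | ∃ u ∈ 𝒵, (γ : Module.End ℂ V) v = u ^ N • v} =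
      {v | ∃ w ∈ {w : ℂ | ∃ u ∈ 𝒵, w = u ^ N}, (γ : Module.End ℂ V) v = w • v} := by
    ext v
    constructor
    · rintro ⟨u, hu, hv⟩
      exact ⟨_, ⟨u, hu, rfl⟩, hv⟩
    · rintro ⟨_, ⟨u, hu, rfl⟩, hv⟩
      exact ⟨u, hu, hv⟩
  rw [hset]
  refine lift ψ hnd halt hG hss hγ (Q := q ^ N) ?_ ?_ b z hb {w : ℂ | ∃ u ∈ 𝒵, w = u ^ N}
    ?_ ?_ ?_
  · exact le_trans hq (Nat.le_self_pow hN q)
  · intro x y
    rw [hmult]
    push_cast
    rfl
  · rintro w ⟨u, hu, rfl⟩
    refine ⟨q / u, hZinv u hu, ?_⟩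
    push_cast
    rw [div_pow]
  · rintro i j ⟨u, hu, hi⟩ hj
    obtain ⟨l, -, hl⟩ := hidx u hu
    rw [hl i hi, hl j (hj.trans hi)]
  · rintro n hn i j ⟨u, hu, hi⟩ hij
    have hne : Nonempty κ := ⟨i⟩
    choose! idx hidx1 hidx2 using hidx
    have hiu : i = idx u := hidx2 u hu i hi
    have hju : j = idx (q / u) := by
      apply hidx2 _ (hZinv u hu)
      have h1 : z i ≠ 0 := by
        rw [hi]
        exact pow_ne_zero _ (hZ0 u hu)
      rw [div_pow, eq_div_iff (pow_ne_zero _ (hZ0 u hu)), ← hi, mul_comm, hij]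
      push_cast
      rfl
    -- the relation
    let P : Finset κ := Finset.univ.filter fun i => ∃ u ∈ 𝒵, z i = u ^ N
    have h1 : (∏ i ∈ P, z i ^ n i) * ∏ i ∈ Finset.univ \ P, z i ^ n i = 1 := by
      rw [← hn, mul_comm]
      exact Finset.prod_sdiff (Finset.subset_univ P)
    have h2 : ∏ i ∈ P, z i ^ n i = (∏ u ∈ 𝒵, u ^ n (idx u)) ^ N := by
      rw [← Finset.prod_pow]
      symm
      refine Finset.prod_bij (fun u _ => idx u) ?_ ?_ ?_ ?_
      · intro u hu
        exact Finset.mem_filter.2 ⟨Finset.mem_univ _, u, hu, hidx1 u hu⟩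
      · intro u hu u' hu' h
        apply hZinj u hu u' hu'
        have e1 := hidx1 u hu
        have e2 := hidx1 u' hu'
        rw [h, e2] at e1
        exact e1.symm
      · intro i hi
        obtain ⟨-, u, hu, h⟩ := Finset.mem_filter.1 hi
        exact ⟨u, hu, (hidx2 u hu i h).symm⟩
      · intro u hu
        have e1 := hidx1 u hu
        rw [e1, ← zpow_natCast, ← zpow_natCast, ← zpow_mul, ← zpow_mul, mul_comm]
    have h3 : ∏ i ∈ Finset.univ \ P, z i ^ n i ∈ splitF R := by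
      refine Subfield.prod_mem (splitF R).toSubfield fun i hi => ?_
      apply Subfield.zpow_mem
      have h4 : z i ∈ croots R := by
        rcases hcase i with h | h
        · exact absurd (Finset.mem_filter.2 ⟨Finset.mem_univ i, h⟩) (Finset.mem_sdiff.1 hi).2
        · exact h
      show z i ∈ splitF R
      rw [splitF]
      exact IntermediateField.subset_adjoin _ _ ((mem_croots hR).1 h4)
    have h4 : (∏ u ∈ 𝒵, u ^ n (idx u)) ^ N ∈ splitF R := by
      rw [h2] at h1
      have h5 : (∏ u ∈ 𝒵, u ^ n (idx u)) ^ N = (∏ i ∈ Finset.univ \ P, z i ^ n i)⁻¹ :=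
        eq_inv_of_mul_eq_one_left h1
      rw [h5]
      exact (splitF R).inv_mem h3
    have h5 := hrelF (fun u => n (idx u)) h4 u hu
    rw [hiu, hju]
    exact h5

end Pool.Agent.Helper59.RL
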