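import Pool.Agent.Helper59.RL.Arith
import Pool.Agent.Helper19.AAR.SignRel

/-!
# RL-5: the free part of the Frobenius eigenvalues of an explicit reduction
-/

open Polynomial Finset

namespace Pool.Agent.Helper59.RL

open Pool.Agent.Helper84.LM (InfSim InLie)
open Pool.Agent.Helper19.AAR (splitF)
open Pool.Agent.Helper19.SC (frob croots res OddPrime FiniteTest LargeDegree Slopes mem_croots)

section
variable (q : ℕ) (h : ℤ[X])

/-- `frob q h` is monic. -/
theorem frob_monic (hm : h.Monic) : (frob q h).Monic := (Helper19.Sign.weil_monic (q : ℤ) h hm).1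

theorem ne_zero_of_mem (hq : 0 < q) (hweil : ∀ z ∈ croots (frob q h), ‖z‖ ^ 2 = q)
    {z : ℂ} (hz : z ∈ croots (frob q h)) : z ≠ 0 := by
  rintro rfl
  have h0 := hweil 0 hz
  rw [norm_zero, zero_pow two_ne_zero] at h0
  have : q = 0 := by exact_mod_cast h0.symm
  omega

/-- The roots of `frob q h` are closed under `z ↦ q / z`. -/
theorem div_mem_croots (hq : 0 < q) (hm : h.Monic)
    (hweil : ∀ z ∈ croots (frob q h), ‖z‖ ^ 2 = q)
    {z : ℂ} (hz : z ∈ croots (frob q h)) : (q : ℂ) / z ∈ croots (frob q h) := by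
  have h0 := ne_zero_of_mem q h hq hweil hz
  have hqC : (q : ℂ) ≠ 0 := by exact_mod_cast hq.ne'
  have hf0 : frob q h ≠ 0 := (frob_monic q h hm).ne_zero
  have h1 := Helper19.SC.frob_eval q h hm z h0
  have h2 := Helper19.SC.frob_eval q h hm (q / z) (div_ne_zero hqC h0)
  rw [mem_croots hf0] at hz ⊢
  have e1 : ((frob q h).map (Int.castRingHom ℂ)).eval z = 0 := by
    rw [eval_map]
    rw [aeval_def] at hz
    exact hz
  rw [e1] at h1
  have h3 : (h.map (Int.castRingHom ℂ)).eval (z + q / z) = 0 := by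
    rcases mul_eq_zero.1 h1.symm with h4 | h4
    · exact absurd h4 (pow_ne_zero _ h0)
    · exact h4
  have e2 : (q : ℂ) / z + q / (q / z) = z + q / z := by
    rw [div_div_cancel₀ hqC, add_comm]
  rw [e2, h3, mul_zero, eval_map] at h2
  rw [aeval_def]
  exact h2

/-- No root of `frob q h` is equal to `q / z`. -/
theorem div_ne (hq : 0 < q) (hm : h.Monic) (hirr : Irreducible (frob q h))
    (hweil : ∀ z ∈ croots (frob q h), ‖z‖ ^ 2 = q)
    (habs : ∀ z ∈ croots (frob q h), ∀ z' ∈ croots (frob q h), ∀ k : ℕ, 0 < k →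
      z ^ k = z' ^ k → z = z')
    {z : ℂ} (hz : z ∈ croots (frob q h)) : (q : ℂ) / z ≠ z := by
  intro hzz
  have h0 := ne_zero_of_mem q h hq hweil hz
  have hfm := frob_monic q h hm
  have hf0 : frob q h ≠ 0 := hfm.ne_zero
  have hz2 : z ^ 2 = q := by
    rw [div_eq_iff h0] at hzz
    rw [sq, hzz]
  have hfd : (frob q h).natDegree = 2 * h.natDegree := (Helper19.Sign.weil_monic (q : ℤ) h hm).2
  set P : ℚ[X] := (frob q h).map (Int.castRingHom ℚ) with hP
  have hPm : P.Monic := hfm.map _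
  have hPi : Irreducible P := (hfm.irreducible_iff_irreducible_map_fraction_map (K := ℚ)).1 hirr
  have hPd : P.natDegree = 2 * h.natDegree := by
    rw [hP, natDegree_map_eq_of_injective (Int.castRingHom ℚ).injective_int, hfd]
  have hPz : aeval z P = 0 := by
    rw [mem_croots hf0] at hz
    rw [hP, aeval_def, eval₂_map]
    rw [aeval_def] at hz
    rw [← hz]
    congr 1
  have hmin : minpoly ℚ z = P := (minpoly.eq_of_irreducible_of_monic hPi hPz hPm).symm
  have hdvd : P ∣ X ^ 2 - C (q : ℚ) := by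
    rw [← hmin]
    apply minpoly.dvd
    simp [hz2]
  have hpos := hPi.natDegree_pos
  have hdeg : (X ^ 2 - C (q : ℚ)).natDegree = 2 := by compute_degree!
  have heq : P = X ^ 2 - C (q : ℚ) := by
    refine (Polynomial.eq_of_monic_of_dvd_of_natDegree_le hPm (by monicity!) hdvd ?_).symm
    rw [hdeg]
    omega
  have hneg : -z ∈ croots (frob q h) := by
    rw [mem_croots hf0]
    have h1 : aeval (-z) P = 0 := by
      rw [heq]
      simp [hz2]
    rw [hP, aeval_def, eval₂_map] at h1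
    rw [aeval_def, ← h1]
    congr 1
  have h2 := habs z hz (-z) hneg 2 two_pos (by ring)
  apply h0
  have h3 : (2 : ℂ) * z = 0 := by linear_combination h2
  simpa using h3

end

/-- **Relative lifts**, maximal angle rank. -/
theorem relative' (q : ℕ) (h : ℤ[X]) (hq : 2 ≤ q) (hm : h.Monic)
    (hirr : Irreducible (frob q h)) (hweil : ∀ z ∈ croots (frob q h), ‖z‖ ^ 2 = q)
    (habs : ∀ z ∈ croots (frob q h), ∀ z' ∈ croots (frob q h), ∀ k : ℕ, 0 < k →
      z ^ k = z' ^ k → z = z')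
    (hang : ∀ (n : ℂ → ℤ) (k : ℕ), 0 < k → (∏ z ∈ croots (frob q h), z ^ n z) ^ k = 1 →
      ∀ z ∈ croots (frob q h), n z = n (q / z))
    (R : ℤ[X]) (N : ℕ) (hN : N ≠ 0)
    (hdeg : Module.finrank ℚ (splitF R) * Module.finrank ℚ (splitF h) <
      Module.finrank ℚ (splitF (frob q h)))
    {V : Type} [AddCommGroup V] [Module ℂ V] [FiniteDimensional ℂ V]
    (ψ : LinearMap.BilinForm ℂ V) (hnd : ψ.Nondegenerate) (halt : ∀ x, ψ x x = 0)
    (γ : (Module.End ℂ V)ˣ) (hγss : (γ : Module.End ℂ V).IsSemisimple)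
    (hmult : ∀ x y, ψ ((γ : Module.End ℂ V) x) ((γ : Module.End ℂ V) y) = (q : ℂ) ^ N * ψ x y)
    (hchar : (γ : Module.End ℂ V).charpoly =
      (∏ z ∈ croots (frob q h), (X - C (z ^ N))) * R.map (Int.castRingHom ℂ))
    (G : Subgroup (Module.End ℂ V)ˣ)
    (hG : ∀ g ∈ G, ∃ c : ℂ, ∀ x y, ψ ((g : Module.End ℂ V) x) ((g : Module.End ℂ V) y) = c * ψ x y)
    (hγ : γ ∈ G)
    (hss : ∀ U : Submodule ℂ V, (∀ X, InLie G X → ∀ u ∈ U, X u ∈ U) →
      ∃ U' : Submodule ℂ V, (∀ X, InLie G X → ∀ u ∈ U', X u ∈ U') ∧ IsCompl U U') :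
    IsCompl (Part G {v | ∃ z ∈ croots (frob q h), (γ : Module.End ℂ V) v = z ^ N • v})
      (orth ψ (Part G {v | ∃ z ∈ croots (frob q h), (γ : Module.End ℂ V) v = z ^ N • v})) ∧
    ∀ X : Module.End ℂ V, InLie G X ↔ InfSim ψ X ∧
      (∀ Y : Module.End ℂ V, (∀ Z, InLie G Z → Y * Z = Z * Y) → X * Y = Y * X) ∧
      ∃ Z, InLie G Z ∧
        ∀ v ∈ orth ψ (Part G {v | ∃ z ∈ croots (frob q h), (γ : Module.End ℂ V) v = z ^ N • v}),
          X v = Z v := by
  have hq0 : 0 < q := by omega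
  have hR0 : R ≠ 0 := by
    rintro rfl
    rw [Polynomial.map_zero, mul_zero] at hchar
    exact (LinearMap.charpoly_monic (γ : Module.End ℂ V)).ne_zero hchar
  refine liftZ hq hN (croots (frob q h)) R hR0
    (fun z hz => div_mem_croots q h hq0 hm hweil hz)
    (fun z hz => div_ne q h hq0 hm hirr hweil habs hz)
    (fun z hz z' hz' e => habs z hz z' hz' N (Nat.pos_of_ne_zero hN) e)
    ?_ ψ hnd halt γ hγss hmult hchar G hG hγ hss
  intro n hn
  refine Helper19.AAR.sign_rel q h hq0 hm hirr (fun n' N' hN' hrel' => ?_) R hR0 hdeg n N hN hn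
  exact hang n' N' (Nat.pos_of_ne_zero hN') hrel'

/-- **Relative lifts.** -/
theorem relative (q : ℕ) (h : ℤ[X]) (hq : 2 ≤ q) (hm : h.Monic)
    (hirr : Irreducible (frob q h)) (hweil : ∀ z ∈ croots (frob q h), ‖z‖ ^ 2 = q)
    (habs : ∀ z ∈ croots (frob q h), ∀ z' ∈ croots (frob q h), ∀ k : ℕ, 0 < k →
      z ^ k = z' ^ k → z = z')
    (hb : ∀ b, b ∣ h.natDegree → 2 < b →
      OddPrime q h ∨ FiniteTest q h b ∨ LargeDegree q h b ∨
        (Slopes q h ∧ (b.Prime ∨ ((∃ k, b = 2 ^ k) ∧ ¬ IsSquare (res q h)))))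
    (R : ℤ[X]) (N : ℕ) (hN : N ≠ 0)
    (hdeg : Module.finrank ℚ (splitF R) * Module.finrank ℚ (splitF h) <
      Module.finrank ℚ (splitF (frob q h)))
    {V : Type} [AddCommGroup V] [Module ℂ V] [FiniteDimensional ℂ V]
    (ψ : LinearMap.BilinForm ℂ V) (hnd : ψ.Nondegenerate) (halt : ∀ x, ψ x x = 0)
    (γ : (Module.End ℂ V)ˣ) (hγss : (γ : Module.End ℂ V).IsSemisimple)
    (hmult : ∀ x y, ψ ((γ : Module.End ℂ V) x) ((γ : Module.End ℂ V) y) = (q : ℂ) ^ N * ψ x y)
    (hchar : (γ : Module.End ℂ V).charpoly =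
      (∏ z ∈ croots (frob q h), (X - C (z ^ N))) * R.map (Int.castRingHom ℂ))
    (G : Subgroup (Module.End ℂ V)ˣ)
    (hG : ∀ g ∈ G, ∃ c : ℂ, ∀ x y, ψ ((g : Module.End ℂ V) x) ((g : Module.End ℂ V) y) = c * ψ x y)
    (hγ : γ ∈ G)
    (hss : ∀ U : Submodule ℂ V, (∀ X, InLie G X → ∀ u ∈ U, X u ∈ U) →
      ∃ U' : Submodule ℂ V, (∀ X, InLie G X → ∀ u ∈ U', X u ∈ U') ∧ IsCompl U U') :
    IsCompl (Part G {v | ∃ z ∈ croots (frob q h), (γ : Module.End ℂ V) v = z ^ N • v})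
      (orth ψ (Part G {v | ∃ z ∈ croots (frob q h), (γ : Module.End ℂ V) v = z ^ N • v})) ∧
    ∀ X : Module.End ℂ V, InLie G X ↔ InfSim ψ X ∧
      (∀ Y : Module.End ℂ V, (∀ Z, InLie G Z → Y * Z = Z * Y) → X * Y = Y * X) ∧
      ∃ Z, InLie G Z ∧
        ∀ v ∈ orth ψ (Part G {v | ∃ z ∈ croots (frob q h), (γ : Module.End ℂ V) v = z ^ N • v}),
          X v = Z v := by
  exact relative' q h hq hm hirr hweil habs (fun n k hk hrel =>
    Helper19.SC.rational q h (by omega) hm hirr hweil habs hb n k hk.ne' 1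
      (hrel.trans (by norm_num))) R N hN hdeg ψ hnd halt γ hγss hmult hchar G hG hγ hss

end Pool.Agent.Helper59.RL
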