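import Pool.Agent.Helper59.RL.Lie

/-!
# RL-2: the full Lefschetz Lie algebra

`L` is a Lie algebra of infinitesimal similitudes of a symplectic space `V`, `V` is semisimple over
`L`, and `L` contains the elements `S ψ (e i) (f i)` with `ψ(e i, f i) = 1`.  Then every
infinitesimal isometry which commutes with `End_L(V)` and vanishes on the orthogonal complement of
the `L`-submodule generated by the `e i` and `f i` lies in `L`.
-/

namespace Pool.Agent.Helper59.RL

variable {V : Type} [AddCommGroup V] [Module ℂ V]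

/-- `v ↦ ψ(v, y) x`. -/
private noncomputable def th (ψ : LinearMap.BilinForm ℂ V) (x y : V) : Module.End ℂ V :=
  (ψ.flip y).smulRight x

private theorem th_apply (ψ : LinearMap.BilinForm ℂ V) (x y v : V) : th ψ x y v = ψ v y • x := rfl

private theorem S_eq (ψ : LinearMap.BilinForm ℂ V) (x y : V) :
    S ψ x y = th ψ x y + th ψ y x := by
  ext v
  rw [S_apply, LinearMap.add_apply, th_apply, th_apply, add_comm]

private theorem th_add_left (ψ : LinearMap.BilinForm ℂ V) (x x' y : V) :
    th ψ (x + x') y = th ψ x y + th ψ x' y := by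
  ext v
  simp [th_apply]

private theorem th_add_right (ψ : LinearMap.BilinForm ℂ V) (x y y' : V) :
    th ψ x (y + y') = th ψ x y + th ψ x y' := by
  ext v
  simp [th_apply, add_smul]

private theorem th_smul_left (ψ : LinearMap.BilinForm ℂ V) (c : ℂ) (x y : V) :
    th ψ (c • x) y = c • th ψ x y := by
  ext v
  simp only [th_apply, LinearMap.smul_apply, smul_smul]
  rw [mul_comm]

private theorem th_smul_right (ψ : LinearMap.BilinForm ℂ V) (c : ℂ) (x y : V) :
    th ψ x (c • y) = c • th ψ x y := by
  ext v
  simp [th_apply, smul_smul]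

private theorem mul_th (ψ : LinearMap.BilinForm ℂ V) (X : Module.End ℂ V) (x y : V) :
    X * th ψ x y = th ψ (X x) y := by
  ext v
  simp [th_apply]

private theorem th_mul (ψ : LinearMap.BilinForm ℂ V) {X : Module.End ℂ V} {c : ℂ}
    (hX : ∀ v w, ψ (X v) w + ψ v (X w) = c * ψ v w) (x y : V) :
    th ψ x y * X = c • th ψ x y - th ψ x (X y) := by
  ext v
  have h1 := hX v y
  have h2 : ψ (X v) y = c * ψ v y - ψ v (X y) := by linear_combination h1
  simp only [LinearMap.sub_apply, LinearMap.smul_apply, Module.End.mul_apply, th_apply, h2]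
  module

variable {ψ : LinearMap.BilinForm ℂ V} {L : Submodule ℂ (Module.End ℂ V)}
  {ι : Type} {e f : ι → V}

/-- The index pairs. -/
private def T (L : Submodule ℂ (Module.End ℂ V)) (ψ : LinearMap.BilinForm ℂ V) (e f : ι → V) :
    Set (Module.End ℂ V) :=
  {a | ∃ i x y, x ∈ gen L {e i} ∧ y ∈ gen L {f i} ∧ (a = th ψ x y ∨ a = th ψ y x)}

private def I (L : Submodule ℂ (Module.End ℂ V)) (ψ : LinearMap.BilinForm ℂ V) (e f : ι → V) :
    Submodule ℂ (Module.End ℂ V) := Submodule.span ℂ (T L ψ e f)

/-- Every `a` in `I` has an adjoint `a'` in `I` with `a - a' ∈ L`. -/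
private theorem adj (halt : ∀ x, ψ x x = 0)
    (hS : ∀ i, ∀ x ∈ gen L {e i}, ∀ y ∈ gen L {f i}, S ψ x y ∈ L) {a : Module.End ℂ V}
    (ha : a ∈ I L ψ e f) : ∃ a', (∀ v w, ψ (a v) w = ψ v (a' w)) ∧ a - a' ∈ L := by
  induction ha using Submodule.span_induction with
  | mem a ha =>
    obtain ⟨i, x, y, hx, hy, h⟩ := ha
    rcases h with rfl | rfl
    · refine ⟨- th ψ y x, fun v w => ?_, ?_⟩
      · simp only [th_apply, map_smul, LinearMap.smul_apply, LinearMap.neg_apply, map_neg,
          smul_eq_mul]
        rw [skew halt w x]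
        ring
      · rw [sub_neg_eq_add, ← S_eq]
        exact hS i x hx y hy
    · refine ⟨- th ψ x y, fun v w => ?_, ?_⟩
      · simp only [th_apply, map_smul, LinearMap.smul_apply, LinearMap.neg_apply, map_neg,
          smul_eq_mul]
        rw [skew halt w y]
        ring
      · rw [sub_neg_eq_add, ← S_eq, S_comm]
        exact hS i x hx y hy
  | zero => exact ⟨0, fun v w => by simp, by simp⟩
  | add a b _ _ iha ihb =>
    obtain ⟨a', h1, h2⟩ := iha
    obtain ⟨b', h3, h4⟩ := ihb
    refine ⟨a' + b', fun v w => ?_, ?_⟩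
    · rw [LinearMap.add_apply, LinearMap.add_apply, map_add, map_add, LinearMap.add_apply, h1, h3]
    · have : a + b - (a' + b') = (a - a') + (b - b') := by abel
      rw [this]
      exact L.add_mem h2 h4
  | smul c a _ iha =>
    obtain ⟨a', h1, h2⟩ := iha
    refine ⟨c • a', fun v w => ?_, ?_⟩
    · rw [LinearMap.smul_apply, LinearMap.smul_apply, map_smul, map_smul, LinearMap.smul_apply,
        h1]
    · rw [← smul_sub]
      exact L.smul_mem _ h2

/-- The associative algebra generated by `L`. -/
private abbrev AL (L : Submodule ℂ (Module.End ℂ V)) : Subalgebra ℂ (Module.End ℂ V) :=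
  Algebra.adjoin ℂ (L : Set (Module.End ℂ V))

private theorem L_le {X : Module.End ℂ V} (hX : X ∈ L) : X ∈ AL L := Algebra.subset_adjoin hX

private theorem th_mem (hsim : ∀ X ∈ L, ∃ c : ℂ, ∀ v w, ψ (X v) w + ψ v (X w) = c * ψ v w)
    {e f : V} (hD : th ψ e f ∈ AL L) {x y : V} (hx : x ∈ gen L {e}) (hy : y ∈ gen L {f}) :
    th ψ x y ∈ AL L := by
  let M : Submodule ℂ V :=
    { carrier := {v | th ψ e v ∈ AL L}
      add_mem' := fun {v w} hv hw => by
        show th ψ e (v + w) ∈ AL L
        rw [th_add_right]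
        exact (AL L).add_mem hv hw
      zero_mem' := by
        show th ψ e 0 ∈ AL L
        have : th ψ e 0 = 0 := by
          ext v
          simp [th_apply]
        rw [this]
        exact (AL L).zero_mem
      smul_mem' := fun c v hv => by
        show th ψ e (c • v) ∈ AL L
        rw [th_smul_right]
        exact (AL L).smul_mem hv c }
  have hM : gen L {f} ≤ M := by
    refine gen_le (fun X hX u hu => ?_) ?_
    · obtain ⟨c, hc⟩ := hsim X hX
      have h1 : th ψ e u ∈ AL L := hu
      have h2 := (AL L).mul_mem h1 (L_le hX)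
      rw [th_mul ψ hc] at h2
      have h3 : th ψ e (X u) = c • th ψ e u - (c • th ψ e u - th ψ e (X u)) := by abel
      show th ψ e (X u) ∈ AL L
      rw [h3]
      exact (AL L).sub_mem ((AL L).smul_mem h1 c) h2
    · intro u hu
      rw [Set.mem_singleton_iff.1 hu]
      exact hD
  let N : Submodule ℂ V :=
    { carrier := {v | ∀ z ∈ gen L {f}, th ψ v z ∈ AL L}
      add_mem' := fun {v w} hv hw z hz => by
        rw [th_add_left]
        exact (AL L).add_mem (hv z hz) (hw z hz)
      zero_mem' := fun z _ => by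
        have : th ψ 0 z = 0 := by
          ext v
          simp [th_apply]
        rw [this]
        exact (AL L).zero_mem
      smul_mem' := fun c v hv z hz => by
        rw [th_smul_left]
        exact (AL L).smul_mem (hv z hz) c }
  have hN : gen L {e} ≤ N := by
    refine gen_le (fun X hX u hu z hz => ?_) ?_
    · rw [← mul_th]
      exact (AL L).mul_mem (L_le hX) (hu z hz)
    · intro u hu z hz
      rw [Set.mem_singleton_iff.1 hu]
      exact hM hz
  exact hN hx y hy

private theorem I_le (halt : ∀ x, ψ x x = 0)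
    (hsim : ∀ X ∈ L, ∃ c : ℂ, ∀ v w, ψ (X v) w + ψ v (X w) = c * ψ v w)
    (hef : ∀ i, ψ (e i) (f i) = 1) (hD : ∀ i, S ψ (e i) (f i) ∈ L) {a : Module.End ℂ V}
    (ha : a ∈ I L ψ e f) : a ∈ AL L := by
  have h1 : ∀ i, th ψ (e i) (f i) ∈ AL L ∧ th ψ (f i) (e i) ∈ AL L := by
    intro i
    have hfe : ψ (f i) (e i) = -1 := by rw [skew halt, hef]
    have hD' := L_le (hD i)
    have hDD := (AL L).mul_mem hD' hD'
    have e1 : S ψ (e i) (f i) * S ψ (e i) (f i) = th ψ (e i) (f i) - th ψ (f i) (e i) := by
      ext v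
      simp only [Module.End.mul_apply, S_apply, LinearMap.sub_apply, th_apply, map_add, map_smul,
        halt, hef, hfe]
      module
    rw [e1] at hDD
    rw [S_eq] at hD'
    constructor
    · have : th ψ (e i) (f i) = (1 / 2 : ℂ) • (th ψ (e i) (f i) + th ψ (f i) (e i)) +
          (1 / 2 : ℂ) • (th ψ (e i) (f i) - th ψ (f i) (e i)) := by module
      rw [this]
      exact (AL L).add_mem ((AL L).smul_mem hD' _) ((AL L).smul_mem hDD _)
    · have : th ψ (f i) (e i) = (1 / 2 : ℂ) • (th ψ (e i) (f i) + th ψ (f i) (e i)) -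
          (1 / 2 : ℂ) • (th ψ (e i) (f i) - th ψ (f i) (e i)) := by module
      rw [this]
      exact (AL L).sub_mem ((AL L).smul_mem hD' _) ((AL L).smul_mem hDD _)
  induction ha using Submodule.span_induction with
  | mem a ha =>
    obtain ⟨i, x, y, hx, hy, h⟩ := ha
    rcases h with rfl | rfl
    · exact th_mem hsim (h1 i).1 hx hy
    · exact th_mem hsim (h1 i).2 hy hx
  | zero => exact (AL L).zero_mem
  | add a b _ _ iha ihb => exact (AL L).add_mem iha ihb
  | smul c a _ iha => exact (AL L).smul_mem iha c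

private theorem mul_mem_I {a r : Module.End ℂ V} (ha : a ∈ I L ψ e f) (hr : r ∈ AL L) :
    r * a ∈ I L ψ e f := by
  induction hr using Algebra.adjoin_induction generalizing a with
  | mem X hX =>
    induction ha using Submodule.span_induction with
    | mem a ha =>
      obtain ⟨i, x, y, hx, hy, h⟩ := ha
      apply Submodule.subset_span
      rcases h with rfl | rfl
      · rw [mul_th]
        exact ⟨i, X x, y, gen_stable L _ X hX x hx, hy, Or.inl rfl⟩
      · rw [mul_th]
        exact ⟨i, x, X y, hx, gen_stable L _ X hX y hy, Or.inr rfl⟩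
    | zero => rw [mul_zero]; exact (I L ψ e f).zero_mem
    | add a b _ _ iha ihb => rw [mul_add]; exact (I L ψ e f).add_mem iha ihb
    | smul c a _ iha => rw [mul_smul_comm]; exact (I L ψ e f).smul_mem _ iha
  | algebraMap c =>
    have : (algebraMap ℂ (Module.End ℂ V) c) * a = c • a := by
      rw [Algebra.smul_def]
    rw [this]
    exact (I L ψ e f).smul_mem _ ha
  | add r s _ _ ihr ihs => rw [add_mul]; exact (I L ψ e f).add_mem (ihr ha) (ihs ha)
  | mul r s _ _ ihr ihs => rw [mul_assoc]; exact ihr (ihs ha)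

/-- Semisimplicity over the associative algebra. -/
private theorem semisimple
    (hss : ∀ U : Submodule ℂ V, Stable L U → ∃ U' : Submodule ℂ V, Stable L U' ∧ IsCompl U U') :
    IsSemisimpleModule (AL L) V := by
  have key : ∀ U : Submodule ℂ V, Stable L U → ∀ r ∈ AL L, ∀ u ∈ U, r u ∈ U := by
    intro U hU r hr
    induction hr using Algebra.adjoin_induction with
    | mem X hX => exact hU X hX
    | algebraMap c =>
      intro u hu
      rw [Module.algebraMap_end_apply]
      exact U.smul_mem _ hu
    | add r s _ _ ihr ihs =>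
      intro u hu
      rw [LinearMap.add_apply]
      exact U.add_mem (ihr u hu) (ihs u hu)
    | mul r s _ _ ihr ihs =>
      intro u hu
      rw [Module.End.mul_apply]
      exact ihr _ (ihs u hu)
  refine { exists_isCompl := fun U => ?_ }
  let U0 : Submodule ℂ V :=
    { carrier := U
      add_mem' := U.add_mem
      zero_mem' := U.zero_mem
      smul_mem' := fun c v hv => by
        have h1 := U.smul_mem (⟨algebraMap ℂ _ c, (AL L).algebraMap_mem c⟩ : AL L) hv
        exact h1 }
  obtain ⟨U', hU', hc⟩ := hss U0 (fun X hX u hu => U.smul_mem (⟨X, L_le hX⟩ : AL L) hu)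
  let U1 : Submodule (AL L) V :=
    { carrier := U'
      add_mem' := U'.add_mem
      zero_mem' := U'.zero_mem
      smul_mem' := fun r v hv => key U' hU' r r.2 v hv }
  refine ⟨U1, ?_⟩
  rw [isCompl_iff, Submodule.disjoint_def, codisjoint_iff, Submodule.eq_top_iff']
  refine ⟨fun x hx hx' => Submodule.disjoint_def.1 hc.disjoint x hx hx', fun x => ?_⟩
  have h1 : x ∈ U0 ⊔ U' := by
    rw [hc.sup_eq_top]
    trivial
  obtain ⟨y, hy, z, hz, rfl⟩ := Submodule.mem_sup.1 h1
  exact Submodule.add_mem_sup (show y ∈ U from hy) (show z ∈ U1 from hz)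

/-- **The full Lefschetz Lie algebra.** -/
theorem full [FiniteDimensional ℂ V] (hnd : ψ.Nondegenerate) (halt : ∀ x, ψ x x = 0)
    (hbr : ∀ X ∈ L, ∀ Y ∈ L, X * Y - Y * X ∈ L)
    (hsim : ∀ X ∈ L, ∃ c : ℂ, ∀ v w, ψ (X v) w + ψ v (X w) = c * ψ v w)
    (hss : ∀ U : Submodule ℂ V, Stable L U → ∃ U' : Submodule ℂ V, Stable L U' ∧ IsCompl U U')
    (hef : ∀ i, ψ (e i) (f i) = 1) (hD : ∀ i, S ψ (e i) (f i) ∈ L) {X : Module.End ℂ V}
    (hX : ∀ v w, ψ (X v) w + ψ v (X w) = 0)
    (hXc : ∀ Y : Module.End ℂ V, (∀ Z ∈ L, Y * Z = Z * Y) → X * Y = Y * X)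
    (hX2 : ∀ v, (∀ u ∈ gen L (Set.range e ∪ Set.range f), ψ v u = 0) → X v = 0) : X ∈ L := by
  classical
  have := semisimple hss
  have hS : ∀ i, ∀ x ∈ gen L {e i}, ∀ y ∈ gen L {f i}, S ψ x y ∈ L := fun i x hx y hy =>
    S_mem halt hbr hsim (hef i) (hD i) hx hy
  -- the claim that `X ∈ I` is enough
  suffices hXI : X ∈ I L ψ e f by
    obtain ⟨a', h1, h2⟩ := adj halt hS hXI
    have h3 : a' = - X := by
      ext w
      have h4 : ∀ v, ψ v (a' w - (- X) w) = 0 := by
        intro v
        rw [map_sub, ← h1, LinearMap.neg_apply, map_neg]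
        linear_combination hX v w
      have h5 : ∀ v, ψ (a' w - (- X) w) v = 0 := by
        intro v
        rw [skew halt, h4, neg_zero]
      exact sub_eq_zero.1 (hnd.1 _ h5)
    rw [h3] at h2
    have h4 : X = (1 / 2 : ℂ) • (X - - X) := by module
    rw [h4]
    exact L.smul_mem _ h2
  let b := Module.finBasis ℂ V
  let n := Module.finrank ℂ V
  -- the submodule `I b`
  let N : Submodule (AL L) (Fin n → V) :=
    { carrier := {w | ∃ a ∈ I L ψ e f, ∀ i, w i = a (b i)}
      add_mem' := by
        rintro v w ⟨a, ha, h1⟩ ⟨c, hc, h2⟩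
        exact ⟨a + c, (I L ψ e f).add_mem ha hc, fun i => by
          rw [Pi.add_apply, h1, h2, LinearMap.add_apply]⟩
      zero_mem' := ⟨0, (I L ψ e f).zero_mem, fun i => rfl⟩
      smul_mem' := by
        rintro r w ⟨a, ha, h1⟩
        refine ⟨r * a, mul_mem_I ha r.2, fun i => ?_⟩
        rw [Pi.smul_apply, h1]
        rfl }
  obtain ⟨N', hN'⟩ := exists_isCompl N
  let p := N.projection N' hN'
  have hpN : ∀ w, p w ∈ N := fun w => Submodule.projection_apply_mem hN' w
  have hpN' : ∀ w ∈ N, p w = w := fun w hw => Submodule.projection_apply_of_mem_left hN' hw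
  -- the entries of `p`
  let c (i j : Fin n) : Module.End ℂ V :=
    { toFun := fun v => p (Pi.single j v) i
      map_add' := fun v w => by
        rw [Pi.single_add, map_add, Pi.add_apply]
      map_smul' := fun z v => by
        have h1 : (Pi.single j (z • v) : Fin n → V) =
            (⟨algebraMap ℂ _ z, (AL L).algebraMap_mem z⟩ : AL L) • (Pi.single j v) := by
          rw [← Pi.single_smul]
          rfl
        rw [h1, map_smul, Pi.smul_apply]
        rfl }
  have hc : ∀ i j, ∀ Z ∈ L, c i j * Z = Z * c i j := by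
    intro i j Z hZ
    ext v
    show p (Pi.single j (Z v)) i = Z (p (Pi.single j v) i)
    have h1 : (Pi.single j (Z v) : Fin n → V) = (⟨Z, L_le hZ⟩ : AL L) • (Pi.single j v) := by
      rw [← Pi.single_smul]
      rfl
    rw [h1, map_smul, Pi.smul_apply]
    rfl
  have hp : ∀ w i, p w i = ∑ j, c i j (w j) := by
    intro w i
    conv_lhs => rw [← Finset.univ_sum_single w]
    rw [map_sum, Finset.sum_apply]
    rfl
  have hXp : ∀ w : Fin n → V, ∀ i, p (fun j => X (w j)) i = X (p w i) := by
    intro w i
    rw [hp, hp, map_sum]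
    refine Finset.sum_congr rfl fun j _ => ?_
    have h1 := congrArg (fun F : Module.End ℂ V => F (w j)) (hXc (c i j) (hc i j))
    exact h1.symm
  -- the part of `b` in the complement is killed by `X`
  let b' : Fin n → V := fun i => b i - p (fun j => b j) i
  have hb' : ∀ i, X (b' i) = 0 := by
    intro i
    apply hX2
    have hkill : ∀ a ∈ I L ψ e f, a (b' i) = 0 := by
      intro a ha
      have ha' : a ∈ AL L := I_le halt hsim hef hD ha
      have h1 : (fun j => a (b j)) ∈ N := ⟨a, ha, fun j => rfl⟩
      have h2 : p ((⟨a, ha'⟩ : AL L) • (fun j => b j)) = (⟨a, ha'⟩ : AL L) • p (fun j => b j) :=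
        map_smul p _ _
      have h3 : ((⟨a, ha'⟩ : AL L) • (fun j => b j) : Fin n → V) = fun j => a (b j) := rfl
      rw [h3, hpN' _ h1] at h2
      have h4 := congrFun h2 i
      have h5 : a (b i) = a (p (fun j => b j) i) := h4
      show a (b i - p (fun j => b j) i) = 0
      rw [map_sub, h5, sub_self]
    -- so it is orthogonal to everything
    have hK : ∀ k, (∀ y ∈ gen L {e k}, ψ (b' i) y = 0) ∧ (∀ y ∈ gen L {f k}, ψ (b' i) y = 0) := by
      intro k
      have he : e k ≠ 0 := by
        intro h
        have := hef k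
        rw [h, map_zero, LinearMap.zero_apply] at this
        exact zero_ne_one this
      have hf : f k ≠ 0 := by
        intro h
        have := hef k
        rw [h, map_zero] at this
        exact zero_ne_one this
      constructor
      · intro y hy
        have h1 := hkill (th ψ (f k) y) (Submodule.subset_span
          ⟨k, y, f k, hy, subset_gen L _ (Set.mem_singleton _), Or.inr rfl⟩)
        rw [th_apply] at h1
        exact (smul_eq_zero.1 h1).resolve_right hf
      · intro y hy
        have h1 := hkill (th ψ (e k) y) (Submodule.subset_span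
          ⟨k, e k, y, subset_gen L _ (Set.mem_singleton _), hy, Or.inl rfl⟩)
        rw [th_apply] at h1
        exact (smul_eq_zero.1 h1).resolve_right he
    let K : Submodule ℂ V :=
      { carrier := {v | ∀ k, (∀ y ∈ gen L {e k}, ψ v y = 0) ∧ (∀ y ∈ gen L {f k}, ψ v y = 0)}
        add_mem' := fun {v w} hv hw k =>
          ⟨fun y hy => by rw [map_add, LinearMap.add_apply, (hv k).1 y hy, (hw k).1 y hy, add_zero],
           fun y hy => by rw [map_add, LinearMap.add_apply, (hv k).2 y hy, (hw k).2 y hy, add_zero]⟩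
        zero_mem' := fun k => ⟨fun y _ => by simp, fun y _ => by simp⟩
        smul_mem' := fun z v hv k =>
          ⟨fun y hy => by rw [map_smul, LinearMap.smul_apply, (hv k).1 y hy, smul_zero],
           fun y hy => by rw [map_smul, LinearMap.smul_apply, (hv k).2 y hy, smul_zero]⟩ }
    have hKst : Stable L K := by
      intro Z hZ v hv k
      obtain ⟨z, hz⟩ := hsim Z hZ
      constructor
      · intro y hy
        have h1 := hz v y
        rw [(hv k).1 y hy, (hv k).1 _ (gen_stable L _ Z hZ y hy)] at h1
        linear_combination h1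
      · intro y hy
        have h1 := hz v y
        rw [(hv k).2 y hy, (hv k).2 _ (gen_stable L _ Z hZ y hy)] at h1
        linear_combination h1
    let K' : Submodule ℂ V :=
      { carrier := {u | ∀ v ∈ K, ψ v u = 0}
        add_mem' := fun {u w} hu hw v hv => by rw [map_add, hu v hv, hw v hv, add_zero]
        zero_mem' := fun v _ => by simp
        smul_mem' := fun z u hu v hv => by rw [map_smul, hu v hv, smul_zero] }
    have hK' : gen L (Set.range e ∪ Set.range f) ≤ K' := by
      refine gen_le (fun Z hZ u hu v hv => ?_) ?_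
      · obtain ⟨z, hz⟩ := hsim Z hZ
        have h1 := hz v u
        rw [hu v hv, hu _ (hKst Z hZ v hv)] at h1
        linear_combination h1
      · rintro u (⟨k, rfl⟩ | ⟨k, rfl⟩) v hv
        · exact (hv k).1 _ (subset_gen L _ (Set.mem_singleton _))
        · exact (hv k).2 _ (subset_gen L _ (Set.mem_singleton _))
    intro u hu
    exact hK' hu (b' i) hK
  -- conclusion
  have h1 : (fun j => X (b j)) ∈ N := by
    have h2 : (fun j => X (b j)) = p (fun j => X (b j)) := by
      funext i
      rw [hXp]
      have h3 : X (b i - p (fun j => b j) i) = 0 := hb' i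
      rw [map_sub, sub_eq_zero] at h3
      exact h3
    rw [h2]
    exact hpN _
  obtain ⟨a, ha, h2⟩ := h1
  have h3 : X = a := b.ext fun i => h2 i
  rw [h3]
  exact ha

end Pool.Agent.Helper59.RL
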