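import Mathlib

/-!
# RL-1: a Lie algebra of similitudes which contains a semisimple element of rank two

`S ψ x y` is the infinitesimal isometry `v ↦ ψ(v, x) y + ψ(v, y) x`.  If a Lie algebra `L` of
infinitesimal similitudes of an alternating form contains `S ψ e f` with `ψ(e, f) = 1`, then it
contains `S ψ x y` for all `x` in the `L`-submodule generated by `e` and all `y` in the
`L`-submodule generated by `f`.  Nothing else is assumed on the space and on `L`.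
-/

namespace Pool.Agent.Helper59.RL

variable {V : Type} [AddCommGroup V] [Module ℂ V]

/-- The infinitesimal isometry `v ↦ ψ(v, x) y + ψ(v, y) x`. -/
noncomputable def S (ψ : LinearMap.BilinForm ℂ V) (x y : V) : Module.End ℂ V :=
  (ψ.flip x).smulRight y + (ψ.flip y).smulRight x

theorem S_apply (ψ : LinearMap.BilinForm ℂ V) (x y v : V) :
    S ψ x y v = ψ v x • y + ψ v y • x := rfl

theorem S_comm (ψ : LinearMap.BilinForm ℂ V) (x y : V) : S ψ x y = S ψ y x := by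
  ext v
  rw [S_apply, S_apply, add_comm]

theorem S_add_right (ψ : LinearMap.BilinForm ℂ V) (x y z : V) :
    S ψ x (y + z) = S ψ x y + S ψ x z := by
  ext v
  simp only [S_apply, LinearMap.add_apply, map_add, smul_add, add_smul]
  abel

theorem S_smul_right (ψ : LinearMap.BilinForm ℂ V) (x y : V) (c : ℂ) :
    S ψ x (c • y) = c • S ψ x y := by
  ext v
  simp only [S_apply, LinearMap.smul_apply, map_smul, smul_add, smul_smul, smul_eq_mul]
  rw [mul_comm (ψ v x) c]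

theorem S_zero_right (ψ : LinearMap.BilinForm ℂ V) (x : V) : S ψ x 0 = 0 := by
  ext v
  simp [S_apply]

/-- The commutator with an infinitesimal similitude. -/
theorem bracket_S (ψ : LinearMap.BilinForm ℂ V) {X : Module.End ℂ V} {c : ℂ}
    (hX : ∀ v w, ψ (X v) w + ψ v (X w) = c * ψ v w) (x y : V) :
    X * S ψ x y - S ψ x y * X = S ψ (X x) y + S ψ x (X y) - c • S ψ x y := by
  ext v
  have h1 := hX v x
  have h2 := hX v y
  simp only [LinearMap.sub_apply, LinearMap.add_apply, LinearMap.smul_apply,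
    Module.End.mul_apply, S_apply, map_add, map_smul]
  have e1 : ψ (X v) x = c * ψ v x - ψ v (X x) := by linear_combination h1
  have e2 : ψ (X v) y = c * ψ v y - ψ v (X y) := by linear_combination h2
  rw [e1, e2]
  module

/-- `L`-stable subspaces. -/
def Stable (L : Submodule ℂ (Module.End ℂ V)) (U : Submodule ℂ V) : Prop :=
  ∀ X ∈ L, ∀ u ∈ U, X u ∈ U

/-- The smallest `L`-stable subspace containing `T`. -/
def gen (L : Submodule ℂ (Module.End ℂ V)) (T : Set V) : Submodule ℂ V :=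
  sInf {U | Stable L U ∧ T ⊆ U}

theorem gen_stable (L : Submodule ℂ (Module.End ℂ V)) (T : Set V) : Stable L (gen L T) := by
  intro X hX u hu
  rw [gen, Submodule.mem_sInf] at hu ⊢
  exact fun U hU => hU.1 X hX u (hu U hU)

theorem subset_gen (L : Submodule ℂ (Module.End ℂ V)) (T : Set V) : T ⊆ gen L T := by
  intro t ht
  rw [SetLike.mem_coe, gen, Submodule.mem_sInf]
  exact fun U hU => hU.2 ht

theorem gen_le {L : Submodule ℂ (Module.End ℂ V)} {T : Set V} {U : Submodule ℂ V}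
    (h1 : Stable L U) (h2 : T ⊆ U) : gen L T ≤ U := sInf_le ⟨h1, h2⟩

section main

variable {ψ : LinearMap.BilinForm ℂ V} {L : Submodule ℂ (Module.End ℂ V)} {e f : V}

/-- Components for `ad D`. -/
private theorem split {A : Module.End ℂ V → Module.End ℂ V} (hA : ∀ X ∈ L, A X ∈ L)
    {y0 y1 y2 z1 z2 : Module.End ℂ V}
    (h0 : ∀ a b c d g : ℂ, A (a • y0 + b • y1 + c • y2 + d • z1 + g • z2) =
      b • y1 + (2 * c) • y2 - d • z1 - (2 * g) • z2)
    (hy : y0 + y1 + y2 + z1 + z2 ∈ L) : y1 ∈ L ∧ y2 ∈ L ∧ z1 ∈ L ∧ z2 ∈ L := by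
  have k0 : (1 : ℂ) • y0 + (1 : ℂ) • y1 + (1 : ℂ) • y2 + (1 : ℂ) • z1 + (1 : ℂ) • z2 ∈ L := by
    simpa only [one_smul] using hy
  have key : ∀ a b c d g : ℂ, a • y0 + b • y1 + c • y2 + d • z1 + g • z2 ∈ L →
      (0 : ℂ) • y0 + b • y1 + (2 * c) • y2 + (-d) • z1 + (-(2 * g)) • z2 ∈ L := by
    intro a b c d g h
    have h1 := hA _ h
    rw [h0] at h1
    have : (0 : ℂ) • y0 + b • y1 + (2 * c) • y2 + (-d) • z1 + (-(2 * g)) • z2 =
        b • y1 + (2 * c) • y2 - d • z1 - (2 * g) • z2 := by module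
    rw [this]
    exact h1
  have k1 := key _ _ _ _ _ k0
  have k2 := key _ _ _ _ _ k1
  have k3 := key _ _ _ _ _ k2
  have k4 := key _ _ _ _ _ k3
  refine ⟨?_, ?_, ?_, ?_⟩
  · have : y1 = (2 / 3 : ℂ) • ((0 : ℂ) • y0 + (1 : ℂ) • y1 + (2 * 1 : ℂ) • y2 + (-1 : ℂ) • z1 +
        (-(2 * 1) : ℂ) • z2) + (2 / 3 : ℂ) • ((0 : ℂ) • y0 + (1 : ℂ) • y1 +
        (2 * (2 * 1) : ℂ) • y2 + (- -1 : ℂ) • z1 + (-(2 * -(2 * 1)) : ℂ) • z2) +
        (-(1 / 6) : ℂ) • ((0 : ℂ) • y0 + (1 : ℂ) • y1 +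
        (2 * (2 * (2 * 1)) : ℂ) • y2 + (- - -1 : ℂ) • z1 + (-(2 * -(2 * -(2 * 1))) : ℂ) • z2) +
        (-(1 / 6) : ℂ) • ((0 : ℂ) • y0 + (1 : ℂ) • y1 +
        (2 * (2 * (2 * (2 * 1))) : ℂ) • y2 + (- - - -1 : ℂ) • z1 +
        (-(2 * -(2 * -(2 * -(2 * 1)))) : ℂ) • z2) := by module
    rw [this]
    exact L.add_mem (L.add_mem (L.add_mem (L.smul_mem _ k1) (L.smul_mem _ k2))
      (L.smul_mem _ k3)) (L.smul_mem _ k4)
  · have : y2 = (-(1 / 12) : ℂ) • ((0 : ℂ) • y0 + (1 : ℂ) • y1 + (2 * 1 : ℂ) • y2 + (-1 : ℂ) • z1 +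
        (-(2 * 1) : ℂ) • z2) + (-(1 / 24) : ℂ) • ((0 : ℂ) • y0 + (1 : ℂ) • y1 +
        (2 * (2 * 1) : ℂ) • y2 + (- -1 : ℂ) • z1 + (-(2 * -(2 * 1)) : ℂ) • z2) +
        (1 / 12 : ℂ) • ((0 : ℂ) • y0 + (1 : ℂ) • y1 +
        (2 * (2 * (2 * 1)) : ℂ) • y2 + (- - -1 : ℂ) • z1 + (-(2 * -(2 * -(2 * 1))) : ℂ) • z2) +
        (1 / 24 : ℂ) • ((0 : ℂ) • y0 + (1 : ℂ) • y1 +
        (2 * (2 * (2 * (2 * 1))) : ℂ) • y2 + (- - - -1 : ℂ) • z1 +
        (-(2 * -(2 * -(2 * -(2 * 1)))) : ℂ) • z2) := by module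
    rw [this]
    exact L.add_mem (L.add_mem (L.add_mem (L.smul_mem _ k1) (L.smul_mem _ k2))
      (L.smul_mem _ k3)) (L.smul_mem _ k4)
  · have : z1 = (-(2 / 3) : ℂ) • ((0 : ℂ) • y0 + (1 : ℂ) • y1 + (2 * 1 : ℂ) • y2 + (-1 : ℂ) • z1 +
        (-(2 * 1) : ℂ) • z2) + (2 / 3 : ℂ) • ((0 : ℂ) • y0 + (1 : ℂ) • y1 +
        (2 * (2 * 1) : ℂ) • y2 + (- -1 : ℂ) • z1 + (-(2 * -(2 * 1)) : ℂ) • z2) +
        (1 / 6 : ℂ) • ((0 : ℂ) • y0 + (1 : ℂ) • y1 +
        (2 * (2 * (2 * 1)) : ℂ) • y2 + (- - -1 : ℂ) • z1 + (-(2 * -(2 * -(2 * 1))) : ℂ) • z2) +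
        (-(1 / 6) : ℂ) • ((0 : ℂ) • y0 + (1 : ℂ) • y1 +
        (2 * (2 * (2 * (2 * 1))) : ℂ) • y2 + (- - - -1 : ℂ) • z1 +
        (-(2 * -(2 * -(2 * -(2 * 1)))) : ℂ) • z2) := by module
    rw [this]
    exact L.add_mem (L.add_mem (L.add_mem (L.smul_mem _ k1) (L.smul_mem _ k2))
      (L.smul_mem _ k3)) (L.smul_mem _ k4)
  · have : z2 = (1 / 12 : ℂ) • ((0 : ℂ) • y0 + (1 : ℂ) • y1 + (2 * 1 : ℂ) • y2 + (-1 : ℂ) • z1 +
        (-(2 * 1) : ℂ) • z2) + (-(1 / 24) : ℂ) • ((0 : ℂ) • y0 + (1 : ℂ) • y1 +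
        (2 * (2 * 1) : ℂ) • y2 + (- -1 : ℂ) • z1 + (-(2 * -(2 * 1)) : ℂ) • z2) +
        (-(1 / 12) : ℂ) • ((0 : ℂ) • y0 + (1 : ℂ) • y1 +
        (2 * (2 * (2 * 1)) : ℂ) • y2 + (- - -1 : ℂ) • z1 + (-(2 * -(2 * -(2 * 1))) : ℂ) • z2) +
        (1 / 24 : ℂ) • ((0 : ℂ) • y0 + (1 : ℂ) • y1 +
        (2 * (2 * (2 * (2 * 1))) : ℂ) • y2 + (- - - -1 : ℂ) • z1 +
        (-(2 * -(2 * -(2 * -(2 * 1)))) : ℂ) • z2) := by module
    rw [this]
    exact L.add_mem (L.add_mem (L.add_mem (L.smul_mem _ k1) (L.smul_mem _ k2))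
      (L.smul_mem _ k3)) (L.smul_mem _ k4)

/-- The component of `v` orthogonal to `e` and `f`. -/
private noncomputable def c0 (ψ : LinearMap.BilinForm ℂ V) (e f v : V) : V :=
  v - ψ v f • e + ψ v e • f

theorem skew (halt : ∀ x, ψ x x = 0) (x y : V) : ψ x y = - ψ y x := by
  have h1 := halt (x + y)
  simp only [map_add, LinearMap.add_apply, halt, zero_add, add_zero] at h1
  linear_combination h1

private theorem c0_e (halt : ∀ x, ψ x x = 0) (hef : ψ e f = 1) (v : V) :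
    ψ (c0 ψ e f v) e = 0 := by
  have h1 := skew halt f e
  rw [hef] at h1
  simp only [c0, map_add, map_sub, map_smul, LinearMap.add_apply, LinearMap.sub_apply,
    LinearMap.smul_apply, smul_eq_mul, halt, h1]
  ring

private theorem c0_f (halt : ∀ x, ψ x x = 0) (hef : ψ e f = 1) (v : V) :
    ψ (c0 ψ e f v) f = 0 := by
  simp only [c0, map_add, map_sub, map_smul, LinearMap.add_apply, LinearMap.sub_apply,
    LinearMap.smul_apply, smul_eq_mul, halt, hef]
  ring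

private theorem dec (v : V) : v = ψ v f • e + (- ψ v e) • f + c0 ψ e f v := by
  unfold c0
  module

private theorem S_dec (x v : V) :
    S ψ x v = ψ v f • S ψ x e + (- ψ v e) • S ψ x f + S ψ x (c0 ψ e f v) := by
  conv_lhs => rw [dec (ψ := ψ) (e := e) (f := f) v]
  rw [S_add_right, S_add_right, S_smul_right, S_smul_right]

private theorem comp (halt : ∀ x, ψ x x = 0) (hbr : ∀ X ∈ L, ∀ Y ∈ L, X * Y - Y * X ∈ L)
    (hef : ψ e f = 1) (hD : S ψ e f ∈ L) (a b : V) (h : S ψ f a + S ψ e b ∈ L) :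
    S ψ e (c0 ψ e f b) ∈ L ∧ ψ b f • S ψ e e ∈ L := by
  have hfe : ψ f e = -1 := by rw [skew halt, hef]
  have hD0 : ∀ v w, ψ (S ψ e f v) w + ψ v (S ψ e f w) = 0 * ψ v w := by
    intro v w
    simp only [S_apply, map_add, map_smul, LinearMap.add_apply, LinearMap.smul_apply, smul_eq_mul]
    rw [skew halt e w, skew halt f w]
    ring
  have hDe : S ψ e f e = e := by
    rw [S_apply, halt, hef, zero_smul, one_smul, zero_add]
  have hDf : S ψ e f f = - f := by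
    rw [S_apply, halt, hfe, zero_smul, add_zero, neg_smul, one_smul]
  have hDw : ∀ v, S ψ e f (c0 ψ e f v) = 0 := by
    intro v
    rw [S_apply, c0_e halt hef, c0_f halt hef, zero_smul, zero_smul, add_zero]
  have hneg : ∀ x y : V, S ψ x (-y) = - S ψ x y := by
    intro x y
    have := S_smul_right ψ x y (-1)
    rwa [neg_one_smul, neg_one_smul] at this
  have hneg' : ∀ x y : V, S ψ (-x) y = - S ψ x y := by
    intro x y
    rw [S_comm, hneg, S_comm]
  have b1 : S ψ e f * S ψ e f - S ψ e f * S ψ e f = 0 := sub_self _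
  have b2 : ∀ v, S ψ e f * S ψ e (c0 ψ e f v) - S ψ e (c0 ψ e f v) * S ψ e f =
      S ψ e (c0 ψ e f v) := by
    intro v
    rw [bracket_S ψ hD0, hDe, hDw, S_zero_right, zero_smul, add_zero, sub_zero]
  have b3 : S ψ e f * S ψ e e - S ψ e e * S ψ e f = (2 : ℂ) • S ψ e e := by
    rw [bracket_S ψ hD0, hDe, zero_smul, sub_zero, two_smul]
  have b4 : ∀ v, S ψ e f * S ψ f (c0 ψ e f v) - S ψ f (c0 ψ e f v) * S ψ e f =
      - S ψ f (c0 ψ e f v) := by
    intro v
    rw [bracket_S ψ hD0, hDf, hDw, S_zero_right, zero_smul, add_zero, sub_zero, hneg']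
  have b5 : S ψ e f * S ψ f f - S ψ f f * S ψ e f = (-2 : ℂ) • S ψ f f := by
    rw [bracket_S ψ hD0, hDf, zero_smul, sub_zero, hneg, hneg']
    module
  have hy : (ψ a f - ψ b e) • S ψ e f + S ψ e (c0 ψ e f b) + ψ b f • S ψ e e +
      S ψ f (c0 ψ e f a) + (- ψ a e) • S ψ f f ∈ L := by
    have h1 : (ψ a f - ψ b e) • S ψ e f + S ψ e (c0 ψ e f b) + ψ b f • S ψ e e +
      S ψ f (c0 ψ e f a) + (- ψ a e) • S ψ f f = S ψ f a + S ψ e b := by
      rw [S_dec (e := e) (f := f) f a, S_dec (e := e) (f := f) e b, S_comm ψ f e]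
      module
    rw [h1]
    exact h
  have key := split (L := L) (A := fun X => S ψ e f * X - X * S ψ e f)
    (fun X hX => hbr _ hD _ hX)
    (y0 := (ψ a f - ψ b e) • S ψ e f) (y1 := S ψ e (c0 ψ e f b)) (y2 := ψ b f • S ψ e e)
    (z1 := S ψ f (c0 ψ e f a)) (z2 := (- ψ a e) • S ψ f f) ?_ hy
  · exact ⟨key.1, key.2.1⟩
  · intro x1 x2 x3 x4 x5
    have e2 := b2 b
    have e4 := b4 a
    simp only [mul_add, add_mul, mul_smul_comm, smul_mul_assoc]
    linear_combination (norm := module) x2 • e2 + (x3 * ψ b f) • b3 + x4 • e4 +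
      (x5 * (- ψ a e)) • b5

/-- `{v | S e v ∈ L}` is `L`-stable. -/
private theorem stable_right (halt : ∀ x, ψ x x = 0)
    (hbr : ∀ X ∈ L, ∀ Y ∈ L, X * Y - Y * X ∈ L)
    (hsim : ∀ X ∈ L, ∃ c : ℂ, ∀ v w, ψ (X v) w + ψ v (X w) = c * ψ v w)
    (hef : ψ e f = 1) (hD : S ψ e f ∈ L) {X : Module.End ℂ V} (hX : X ∈ L) {v : V}
    (hv : S ψ e v ∈ L) : S ψ e (X v) ∈ L := by
  have hfe : ψ f e = -1 := by rw [skew halt, hef]
  -- the element `S e (X f)`
  have A : ∀ Y ∈ L, S ψ e (c0 ψ e f (Y f)) ∈ L ∧ ψ (Y f) f • S ψ e e ∈ L := by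
    intro Y hY
    obtain ⟨c, hc⟩ := hsim Y hY
    apply comp halt hbr hef hD (Y e) (Y f)
    have h1 := L.add_mem (hbr Y hY _ hD) (L.smul_mem c hD)
    rw [bracket_S ψ hc, sub_add_cancel, S_comm ψ (Y e) f] at h1
    exact h1
  have B : ∀ Y ∈ L, S ψ e (Y f) ∈ L := by
    intro Y hY
    obtain ⟨h1, h2⟩ := A Y hY
    rw [S_dec (e := e) (f := f) e (Y f)]
    exact L.add_mem (L.add_mem h2 (L.smul_mem _ hD)) h1
  -- the components of `v`
  have hv' : S ψ e (c0 ψ e f v) ∈ L ∧ ψ v f • S ψ e e ∈ L := by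
    apply comp halt hbr hef hD 0 v
    rw [S_zero_right, zero_add]
    exact hv
  obtain ⟨hw, hve⟩ := hv'
  obtain ⟨c, hc⟩ := hsim X hX
  -- the three parts
  have p1 : ψ v f • S ψ e (X e) ∈ L := by
    have h1 := hbr X hX _ hve
    rw [mul_smul_comm, smul_mul_assoc, ← smul_sub, bracket_S ψ hc, S_comm ψ (X e) e] at h1
    have h2 : ψ v f • S ψ e (X e) = (1 / 2 : ℂ) • (ψ v f • (S ψ e (X e) + S ψ e (X e) -
      c • S ψ e e)) + (c / 2) • (ψ v f • S ψ e e) := by module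
    rw [h2]
    exact L.add_mem (L.smul_mem _ h1) (L.smul_mem _ hve)
  have p2 : S ψ e (X (c0 ψ e f v)) ∈ L := by
    set w := c0 ψ e f v with hwdef
    have hwe : ψ w e = 0 := c0_e halt hef v
    have hwf : ψ w f = 0 := c0_f halt hef v
    have h1 := hbr X hX _ hw
    obtain ⟨-, h3⟩ := A _ h1
    have h2 := B _ h1
    have e1 : (X * S ψ e w - S ψ e w * X) f = - X w - ψ (X f) e • w - ψ (X f) w • e := by
      rw [LinearMap.sub_apply, Module.End.mul_apply, Module.End.mul_apply, S_apply, S_apply,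
        hfe, skew halt f w, hwf, neg_zero, zero_smul, add_zero, neg_smul, one_smul, map_neg]
      module
    have e2 : ψ (X w) f = ψ (X f) w := by
      have h4 := hc w f
      rw [hwf, mul_zero, skew halt w (X f)] at h4
      linear_combination h4
    rw [e1] at h2 h3
    have h4 : ψ (-X w - ψ (X f) e • w - ψ (X f) w • e) f = -2 * ψ (X f) w := by
      simp only [map_sub, map_neg, map_smul, LinearMap.sub_apply, LinearMap.neg_apply,
        LinearMap.smul_apply, smul_eq_mul, hwf, hef, e2]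
      ring
    rw [h4] at h3
    have h5 : -X w - ψ (X f) e • w - ψ (X f) w • e = (-1 : ℂ) • X w + (-ψ (X f) e) • w +
        (-ψ (X f) w) • e := by module
    rw [h5, S_add_right, S_add_right, S_smul_right, S_smul_right, S_smul_right] at h2
    have h6 : S ψ e (X w) = (-1 : ℂ) • ((-1 : ℂ) • S ψ e (X w) + (-ψ (X f) e) • S ψ e w +
        (-ψ (X f) w) • S ψ e e) + (- ψ (X f) e) • S ψ e w +
        (1 / 2 : ℂ) • ((-2 * ψ (X f) w) • S ψ e e) := by module
    rw [h6]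
    exact L.add_mem (L.add_mem (L.smul_mem _ h2) (L.smul_mem _ hw)) (L.smul_mem _ h3)
  have h7 : X v = ψ v f • X e + (- ψ v e) • X f + X (c0 ψ e f v) := by
    conv_lhs => rw [dec (ψ := ψ) (e := e) (f := f) v]
    rw [map_add, map_add, map_smul, map_smul]
  rw [h7, S_add_right, S_add_right, S_smul_right, S_smul_right]
  exact L.add_mem (L.add_mem p1 (L.smul_mem _ (B X hX))) p2

/-- **The Lie lemma.** -/
theorem S_mem (halt : ∀ x, ψ x x = 0)
    (hbr : ∀ X ∈ L, ∀ Y ∈ L, X * Y - Y * X ∈ L)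
    (hsim : ∀ X ∈ L, ∃ c : ℂ, ∀ v w, ψ (X v) w + ψ v (X w) = c * ψ v w)
    (hef : ψ e f = 1) (hD : S ψ e f ∈ L) {x y : V} (hx : x ∈ gen L {e}) (hy : y ∈ gen L {f}) :
    S ψ x y ∈ L := by
  -- first `S e y`
  let M : Submodule ℂ V :=
    { carrier := {v | S ψ e v ∈ L}
      add_mem' := fun {v w} hv hw => by
        show S ψ e (v + w) ∈ L
        rw [S_add_right]
        exact L.add_mem hv hw
      zero_mem' := by
        show S ψ e 0 ∈ L
        rw [S_zero_right]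
        exact L.zero_mem
      smul_mem' := fun c v hv => by
        show S ψ e (c • v) ∈ L
        rw [S_smul_right]
        exact L.smul_mem _ hv }
  have hM : gen L {f} ≤ M := by
    refine gen_le (fun X hX u hu => ?_) ?_
    · exact stable_right halt hbr hsim hef hD hX hu
    · intro u hu
      rw [Set.mem_singleton_iff.1 hu]
      exact hD
  -- then `S x y`
  let N : Submodule ℂ V :=
    { carrier := {v | ∀ z ∈ gen L {f}, S ψ z v ∈ L}
      add_mem' := fun {v w} hv hw z hz => by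
        rw [S_add_right]
        exact L.add_mem (hv z hz) (hw z hz)
      zero_mem' := fun z _ => by
        rw [S_zero_right]
        exact L.zero_mem
      smul_mem' := fun c v hv z hz => by
        rw [S_smul_right]
        exact L.smul_mem _ (hv z hz) }
  have hN : gen L {e} ≤ N := by
    refine gen_le (fun X hX u hu z hz => ?_) ?_
    · obtain ⟨c, hc⟩ := hsim X hX
      have h1 := hbr X hX _ (hu z hz)
      rw [bracket_S ψ hc] at h1
      have h2 := hu (X z) (gen_stable L {f} X hX z hz)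
      have h3 : S ψ z (X u) = (S ψ (X z) u + S ψ z (X u) - c • S ψ z u) +
          ((-1 : ℂ) • S ψ (X z) u + c • S ψ z u) := by module
      rw [h3]
      exact L.add_mem h1 (L.add_mem (L.smul_mem _ h2) (L.smul_mem _ (hu z hz)))
    · intro u hu z hz
      rw [Set.mem_singleton_iff.1 hu, S_comm]
      exact hM hz
  rw [S_comm]
  exact hN hx y hy

end main

end Pool.Agent.Helper59.RL
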