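import Pool.Agent.Helper59.RL.Full
import Pool.Agent.Helper84.LM.Defs
import Pool.Agent.Helper68.LM.Zariski

/-!
# RL-3: groups of similitudes containing a diagonalizable element with free eigenvalues
-/

namespace Pool.Agent.Helper59.RL

open Pool.Agent.Helper84.LM (InfSim InLie)
open Pool.Agent.Helper68.LM (lieZar lieZar_bracket lieZar_infSim torus_mem)

variable {V : Type} [AddCommGroup V] [Module ℂ V]

/-- `V_1`: the smallest subspace of `V` which contains `T` and is stable under the Lie algebra of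
the Zariski closure of `G`. -/
def Part (G : Subgroup (Module.End ℂ V)ˣ) (T : Set V) : Submodule ℂ V :=
  sInf {U | (∀ X, InLie G X → ∀ u ∈ U, X u ∈ U) ∧ T ⊆ U}

theorem part_eq (G : Subgroup (Module.End ℂ V)ˣ) (T : Set V) : Part G T = gen (lieZar G) T := rfl

/-- The orthogonal complement. -/
def orth (ψ : LinearMap.BilinForm ℂ V) (U : Submodule ℂ V) : Submodule ℂ V where
  carrier := {v | ∀ u ∈ U, ψ v u = 0}
  add_mem' := fun {v w} hv hw u hu => by
    rw [map_add, LinearMap.add_apply, hv u hu, hw u hu, add_zero]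
  zero_mem' := fun u _ => by simp
  smul_mem' := fun c v hv u hu => by rw [map_smul, LinearMap.smul_apply, hv u hu, smul_zero]

section compl

variable {ψ : LinearMap.BilinForm ℂ V} {L : Submodule ℂ (Module.End ℂ V)}
  {ι : Type} {e f : ι → V}

theorem isCompl_orth (hnd : ψ.Nondegenerate) (halt : ∀ x, ψ x x = 0)
    (hsim : ∀ X ∈ L, ∃ c : ℂ, ∀ v w, ψ (X v) w + ψ v (X w) = c * ψ v w)
    (hss : ∀ U : Submodule ℂ V, Stable L U → ∃ U' : Submodule ℂ V, Stable L U' ∧ IsCompl U U')
    (hef : ∀ i, ψ (e i) (f i) = 1) (hD : ∀ i, S ψ (e i) (f i) ∈ L) :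
    IsCompl (gen L (Set.range e ∪ Set.range f)) (orth ψ (gen L (Set.range e ∪ Set.range f))) := by
  set V1 := gen L (Set.range e ∪ Set.range f) with hV1
  obtain ⟨C, hC, hc⟩ := hss V1 (gen_stable L _)
  have he : ∀ i, e i ∈ V1 := fun i => subset_gen L _ (Or.inl ⟨i, rfl⟩)
  have hf : ∀ i, f i ∈ V1 := fun i => subset_gen L _ (Or.inr ⟨i, rfl⟩)
  -- `C` is orthogonal to `V1`
  have hCo : ∀ v ∈ C, ∀ u ∈ V1, ψ v u = 0 := by
    have h1 : ∀ v ∈ C, ∀ i, ψ v (e i) = 0 ∧ ψ v (f i) = 0 := by
      intro v hv i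
      have h2 : S ψ (e i) (f i) v ∈ C := hC _ (hD i) v hv
      have h3 : S ψ (e i) (f i) v ∈ V1 := by
        rw [S_apply]
        exact V1.add_mem (V1.smul_mem _ (hf i)) (V1.smul_mem _ (he i))
      have h4 := Submodule.disjoint_def.1 hc.disjoint _ h3 h2
      rw [S_apply] at h4
      have hfe : ψ (f i) (e i) = -1 := by rw [skew halt, hef]
      have h5 := congrArg (fun x => ψ x (f i)) h4
      have h6 := congrArg (fun x => ψ x (e i)) h4
      simp only [map_add, map_smul, LinearMap.add_apply, LinearMap.smul_apply, halt, hef, hfe,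
        map_zero, LinearMap.zero_apply, smul_eq_mul] at h5 h6
      constructor
      · linear_combination -h6
      · linear_combination h5
    let K : Submodule ℂ V :=
      { carrier := {u | ∀ v ∈ C, ψ v u = 0}
        add_mem' := fun {u w} hu hw v hv => by rw [map_add, hu v hv, hw v hv, add_zero]
        zero_mem' := fun v _ => by simp
        smul_mem' := fun z u hu v hv => by rw [map_smul, hu v hv, smul_zero] }
    have hK : V1 ≤ K := by
      refine gen_le (fun Z hZ u hu v hv => ?_) ?_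
      · obtain ⟨z, hz⟩ := hsim Z hZ
        have h2 := hz v u
        rw [hu v hv, hu _ (hC Z hZ v hv)] at h2
        linear_combination h2
      · rintro u (⟨k, rfl⟩ | ⟨k, rfl⟩) v hv
        · exact (h1 v hv k).1
        · exact (h1 v hv k).2
    exact fun v hv u hu => hK hu v hv
  rw [isCompl_iff, Submodule.disjoint_def, codisjoint_iff, Submodule.eq_top_iff']
  constructor
  · intro x hx hx'
    apply hnd.1
    intro y
    have h1 : y ∈ V1 ⊔ C := by
      rw [hc.sup_eq_top]
      trivial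
    obtain ⟨u, hu, v, hv, rfl⟩ := Submodule.mem_sup.1 h1
    rw [map_add, hx' u hu, zero_add, skew halt, hCo v hv x hx, neg_zero]
  · intro x
    have h1 : x ∈ V1 ⊔ C := by
      rw [hc.sup_eq_top]
      trivial
    obtain ⟨u, hu, v, hv, rfl⟩ := Submodule.mem_sup.1 h1
    exact Submodule.add_mem_sup hu (show v ∈ orth ψ V1 from hCo v hv)

/-- The Lie algebra is the fibre product of the Lefschetz Lie algebra of `V_1` and its image on
`V_2`. -/
theorem fibre [FiniteDimensional ℂ V] (hnd : ψ.Nondegenerate) (halt : ∀ x, ψ x x = 0)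
    (hbr : ∀ X ∈ L, ∀ Y ∈ L, X * Y - Y * X ∈ L)
    (hsim : ∀ X ∈ L, ∃ c : ℂ, ∀ v w, ψ (X v) w + ψ v (X w) = c * ψ v w)
    (hss : ∀ U : Submodule ℂ V, Stable L U → ∃ U' : Submodule ℂ V, Stable L U' ∧ IsCompl U U')
    (hef : ∀ i, ψ (e i) (f i) = 1) (hD : ∀ i, S ψ (e i) (f i) ∈ L)
    (hTL : ∃ T ∈ L, ∃ m : ℂ, m ≠ 0 ∧ ∀ v w, ψ (T v) w + ψ v (T w) = m * ψ v w)
    (X : Module.End ℂ V) :
    X ∈ L ↔ InfSim ψ X ∧ (∀ Y : Module.End ℂ V, (∀ Z ∈ L, Y * Z = Z * Y) → X * Y = Y * X) ∧
      ∃ Z ∈ L, ∀ v ∈ orth ψ (gen L (Set.range e ∪ Set.range f)), X v = Z v := by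
  constructor
  · intro hX
    exact ⟨hsim X hX, fun Y hY => (hY X hX).symm, X, hX, fun v _ => rfl⟩
  rintro ⟨⟨c, hc⟩, hXc, Z, hZ, hXZ⟩
  have hcompl := isCompl_orth (e := e) (f := f) hnd halt hsim hss hef hD
  set V1 := gen L (Set.range e ∪ Set.range f) with hV1
  obtain ⟨d, hd⟩ := hsim Z hZ
  -- the difference
  have hW : ∀ v w, ψ ((X - Z) v) w + ψ v ((X - Z) w) = (c - d) * ψ v w := by
    intro v w
    rw [LinearMap.sub_apply, LinearMap.sub_apply, map_sub, map_sub, LinearMap.sub_apply]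
    linear_combination hc v w - hd v w
  have hWc : ∀ Y : Module.End ℂ V, (∀ Z ∈ L, Y * Z = Z * Y) → (X - Z) * Y = Y * (X - Z) := by
    intro Y hY
    rw [sub_mul, mul_sub, hXc Y hY, hY Z hZ]
  have hW2 : ∀ v ∈ orth ψ V1, (X - Z) v = 0 := by
    intro v hv
    rw [LinearMap.sub_apply, hXZ v hv, sub_self]
  suffices h : X - Z ∈ L by
    have := L.add_mem h hZ
    rwa [sub_add_cancel] at this
  by_cases hcd : c - d = 0
  · refine full (e := e) (f := f) hnd halt hbr hsim hss hef hD (fun v w => ?_) hWc ?_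
    · rw [hW, hcd, zero_mul]
    · exact fun v hv => hW2 v hv
  -- otherwise `V_2 = 0`
  have h2 : ∀ v ∈ orth ψ V1, v = 0 := by
    intro v hv
    apply hnd.1
    intro w
    have h3 : w ∈ V1 ⊔ orth ψ V1 := by
      rw [hcompl.sup_eq_top]
      trivial
    obtain ⟨u, hu, u', hu', rfl⟩ := Submodule.mem_sup.1 h3
    have h4 := hW v u'
    rw [hW2 v hv, hW2 u' hu', map_zero, map_zero, LinearMap.zero_apply, zero_add] at h4
    rw [map_add, hv u hu, zero_add]
    exact (mul_eq_zero.1 h4.symm).resolve_left hcd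
  obtain ⟨T, hT, m, hm, hTm⟩ := hTL
  have h3 : X - Z - ((c - d) / m) • T ∈ L := by
    refine full (e := e) (f := f) hnd halt hbr hsim hss hef hD (fun v w => ?_) (fun Y hY => ?_) ?_
    · have h4 := hW v w
      have h5 := hTm v w
      have h6 : (c - d) / m * m = c - d := div_mul_cancel₀ _ hm
      simp only [LinearMap.sub_apply, LinearMap.smul_apply, map_sub,
        map_smul, smul_eq_mul] at h4 ⊢
      linear_combination h4 - (c - d) / m * h5 - ψ v w * h6
    · rw [sub_mul, mul_sub, hWc Y hY, smul_mul_assoc, mul_smul_comm, hY T hT]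
    · intro v hv
      rw [h2 v hv, map_zero]
  have h4 := L.add_mem h3 (L.smul_mem ((c - d) / m) hT)
  rwa [sub_add_cancel] at h4

end compl

section torus

variable [FiniteDimensional ℂ V] {κ : Type} [Fintype κ]

theorem lift (ψ : LinearMap.BilinForm ℂ V) (hnd : ψ.Nondegenerate) (halt : ∀ x, ψ x x = 0)
    {G : Subgroup (Module.End ℂ V)ˣ}
    (hG : ∀ g ∈ G, ∃ c : ℂ, ∀ x y, ψ ((g : Module.End ℂ V) x) ((g : Module.End ℂ V) y) = c * ψ x y)
    (hss : ∀ U : Submodule ℂ V, (∀ X, InLie G X → ∀ u ∈ U, X u ∈ U) →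
      ∃ U' : Submodule ℂ V, (∀ X, InLie G X → ∀ u ∈ U', X u ∈ U') ∧ IsCompl U U')
    {γ : (Module.End ℂ V)ˣ} (hγ : γ ∈ G) {Q : ℕ} (hQ : 2 ≤ Q)
    (hmult : ∀ x y, ψ ((γ : Module.End ℂ V) x) ((γ : Module.End ℂ V) y) = Q * ψ x y)
    (b : Module.Basis κ ℂ V) (z : κ → ℂ) (hb : ∀ i, (γ : Module.End ℂ V) (b i) = z i • b i)
    (Zs : Set ℂ) (hinv : ∀ w ∈ Zs, (Q : ℂ) / w ∈ Zs)
    (hsimple : ∀ i j, z i ∈ Zs → z j = z i → j = i)
    (hrel : ∀ n : κ → ℤ, ∏ i, z i ^ n i = 1 → ∀ i j, z i ∈ Zs → z i * z j = Q → n i = n j) :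
    IsCompl (Part G {v | ∃ w ∈ Zs, (γ : Module.End ℂ V) v = w • v})
      (orth ψ (Part G {v | ∃ w ∈ Zs, (γ : Module.End ℂ V) v = w • v})) ∧
    ∀ X : Module.End ℂ V, InLie G X ↔ InfSim ψ X ∧
      (∀ Y : Module.End ℂ V, (∀ Z, InLie G Z → Y * Z = Z * Y) → X * Y = Y * X) ∧
      ∃ Z, InLie G Z ∧
        ∀ v ∈ orth ψ (Part G {v | ∃ w ∈ Zs, (γ : Module.End ℂ V) v = w • v}), X v = Z v := by
  classical
  have hQ0 : (Q : ℂ) ≠ 0 := by exact_mod_cast (by omega : Q ≠ 0)
  have hz0 : ∀ i, z i ≠ 0 := by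
    intro i h
    have h1 := hb i
    rw [h, zero_smul] at h1
    have h2 : ((γ⁻¹ : (Module.End ℂ V)ˣ) : Module.End ℂ V) ((γ : Module.End ℂ V) (b i)) = b i := by
      rw [← Module.End.mul_apply, Units.inv_mul, Module.End.one_apply]
    rw [h1, map_zero] at h2
    exact b.ne_zero i h2.symm
  have hpair : ∀ i j, ψ (b i) (b j) ≠ 0 → z i * z j = Q := by
    intro i j hne
    have h1 := hmult (b i) (b j)
    rw [hb, hb, LinearMap.BilinForm.smul_left, LinearMap.BilinForm.smul_right] at h1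
    have h2 : (z i * z j - Q) * ψ (b i) (b j) = 0 := by linear_combination h1
    exact sub_eq_zero.1 ((mul_eq_zero.1 h2).resolve_right hne)
  have hex : ∀ i, ∃ j, ψ (b i) (b j) ≠ 0 := by
    intro i
    by_contra hcon
    push Not at hcon
    apply b.ne_zero i
    apply hnd.1
    intro y
    rw [← b.sum_repr y, LinearMap.BilinForm.sum_right]
    apply Finset.sum_eq_zero
    intro w _
    rw [LinearMap.BilinForm.smul_right, hcon w, mul_zero]
  choose σ hσ using hex
  have hσq : ∀ i, z i * z (σ i) = Q := fun i => hpair i (σ i) (hσ i)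
  have hσZ : ∀ i, z i ∈ Zs → z (σ i) ∈ Zs := by
    intro i hi
    have h1 : z (σ i) = Q / z i := by
      rw [eq_div_iff (hz0 i), mul_comm]
      exact hσq i
    rw [h1]
    exact hinv _ hi
  have hσne : ∀ i, σ i ≠ i := by
    intro i h
    have := hσ i
    rw [h] at this
    exact this (halt _)
  -- the pairs
  let ι := {i : κ // z i ∈ Zs}
  let e : ι → V := fun i => b i
  let f : ι → V := fun i => (ψ (b i) (b (σ i)))⁻¹ • b (σ i)
  have hef : ∀ i, ψ (e i) (f i) = 1 := by
    intro i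
    show ψ (b i) ((ψ (b i) (b (σ i)))⁻¹ • b (σ i)) = 1
    rw [map_smul, smul_eq_mul, inv_mul_cancel₀ (hσ i)]
  have hL : ∀ X, InLie G X ↔ X ∈ lieZar G := fun X => Iff.rfl
  have hD : ∀ i, S ψ (e i) (f i) ∈ lieZar G := by
    intro i
    refine torus_mem hγ b z hb (fun j => if j = i.1 then 1 else if j = σ i.1 then -1 else 0) ?_ ?_
    · intro n hn
      have h1 := hrel n hn i (σ i.1) i.2 (hσq i)
      have h2 : ∀ j, (n j : ℂ) * (if j = i.1 then (1 : ℂ) else if j = σ i.1 then -1 else 0) =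
          (if j = i.1 then (n j : ℂ) else 0) - (if j = σ i.1 then (n j : ℂ) else 0) := by
        intro j
        by_cases hj : j = i.1
        · have hj2 : ¬ j = σ i.1 := by
            rw [hj]
            exact fun h => hσne i.1 h.symm
          rw [if_pos hj, if_pos hj, if_neg hj2]
          ring
        · rw [if_neg hj, if_neg hj]
          split_ifs <;> ring
      rw [Finset.sum_congr rfl fun j _ => h2 j, Finset.sum_sub_distrib, Finset.sum_ite_eq',
        Finset.sum_ite_eq', if_pos (Finset.mem_univ _), if_pos (Finset.mem_univ _), h1, sub_self]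
    · intro j
      rw [S_apply]
      show ψ (b j) (b i) • ((ψ (b i) (b (σ i)))⁻¹ • b (σ i)) +
        ψ (b j) ((ψ (b i) (b (σ i)))⁻¹ • b (σ i)) • b i = _
      by_cases hj : j = i.1
      · rw [if_pos hj, hj, halt, zero_smul, zero_add, map_smul, smul_eq_mul,
          inv_mul_cancel₀ (hσ i)]
      · rw [if_neg hj]
        have h1 : ψ (b j) (b (σ i.1)) = 0 := by
          by_contra hne
          apply hj
          apply hsimple i.1 j i.2
          have h2 := hpair _ _ hne
          have h3 := hσq i.1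
          exact mul_right_cancel₀ (hz0 (σ i.1)) (h2.trans h3.symm)
        rw [map_smul, h1, smul_zero, zero_smul, add_zero]
        by_cases hj2 : j = σ i.1
        · rw [if_pos hj2, hj2, skew halt (b (σ i.1)) (b i), smul_smul, neg_mul,
            mul_inv_cancel₀ (hσ i)]
        · rw [if_neg hj2]
          have h4 : ψ (b j) (b i.1) = 0 := by
            by_contra hne
            apply hj2
            apply hsimple (σ i.1) j (hσZ _ i.2)
            have h2 := hpair _ _ hne
            have h3 := hσq i.1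
            rw [mul_comm] at h3
            exact mul_right_cancel₀ (hz0 i.1) (h2.trans h3.symm)
          rw [h4, zero_smul, zero_smul]
  have hTL : ∃ T ∈ lieZar G, ∃ m : ℂ, m ≠ 0 ∧ ∀ v w, ψ (T v) w + ψ v (T w) = m * ψ v w := by
    let T : Module.End ℂ V := b.constr ℂ fun i => ((Real.log ‖z i‖ : ℝ) : ℂ) • b i
    have hTb : ∀ i, T (b i) = ((Real.log ‖z i‖ : ℝ) : ℂ) • b i := fun i => b.constr_basis ℂ _ i
    have hQ1 : (1 : ℝ) < Q := by exact_mod_cast (by omega : 1 < Q)
    refine ⟨T, ?_, ((Real.log Q : ℝ) : ℂ), ?_, ?_⟩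
    · refine torus_mem hγ b z hb (fun i => ((Real.log ‖z i‖ : ℝ) : ℂ)) ?_ hTb
      intro n hn
      have h1 := congrArg (fun w : ℂ => Real.log ‖w‖) hn
      simp only [norm_prod, norm_zpow, norm_one, Real.log_one] at h1
      rw [Real.log_prod fun i _ => zpow_ne_zero _ (norm_ne_zero_iff.2 (hz0 i))] at h1
      simp only [Real.log_zpow] at h1
      exact_mod_cast h1
    · exact_mod_cast (Real.log_pos hQ1).ne'
    · intro v w
      rw [← b.sum_repr v, ← b.sum_repr w]
      simp only [map_sum, map_smul, hTb, LinearMap.sum_apply, LinearMap.smul_apply, smul_eq_mul,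
        Finset.mul_sum, ← Finset.sum_add_distrib]
      refine Finset.sum_congr rfl fun i _ => Finset.sum_congr rfl fun j _ => ?_
      by_cases hij : ψ (b j) (b i) = 0
      · rw [hij]
        ring
      · have h2 : ((Real.log ‖z j‖ : ℝ) : ℂ) + ((Real.log ‖z i‖ : ℝ) : ℂ) =
            ((Real.log Q : ℝ) : ℂ) := by
          have h3 := congrArg (fun w : ℂ => Real.log ‖w‖) (hpair j i hij)
          simp only [norm_mul, Complex.norm_natCast] at h3
          rw [Real.log_mul (norm_ne_zero_iff.2 (hz0 j)) (norm_ne_zero_iff.2 (hz0 i))] at h3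
          exact_mod_cast h3
        rw [← h2]
        ring
  have hbr : ∀ X ∈ lieZar G, ∀ Y ∈ lieZar G, X * Y - Y * X ∈ lieZar G := fun X hX Y hY =>
    lieZar_bracket hX hY
  have hsim : ∀ X ∈ lieZar G, ∃ c : ℂ, ∀ v w, ψ (X v) w + ψ v (X w) = c * ψ v w :=
    fun X hX => lieZar_infSim ψ hG hX
  have hss' : ∀ U : Submodule ℂ V, Stable (lieZar G) U →
      ∃ U' : Submodule ℂ V, Stable (lieZar G) U' ∧ IsCompl U U' := hss
  -- the two sets generate the same submodule
  have hgen : Part G {v | ∃ w ∈ Zs, (γ : Module.End ℂ V) v = w • v} =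
      gen (lieZar G) (Set.range e ∪ Set.range f) := by
    rw [part_eq]
    apply le_antisymm
    · refine gen_le (gen_stable _ _) ?_
      rintro v ⟨w, hw, hv⟩
      have h2 : ∀ i, (z i - w) * b.repr v i = 0 := by
        intro i
        have h3 : (γ : Module.End ℂ V) v = ∑ i, (b.repr v i * z i) • b i := by
          conv_lhs => rw [← b.sum_repr v]
          rw [map_sum]
          refine Finset.sum_congr rfl fun i _ => ?_
          rw [map_smul, hb, smul_smul]
        have h4 : w • v = ∑ i, (w * b.repr v i) • b i := by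
          conv_lhs => rw [← b.sum_repr v]
          rw [Finset.smul_sum]
          refine Finset.sum_congr rfl fun i _ => ?_
          rw [smul_smul]
        have h5 : b.repr ((γ : Module.End ℂ V) v) i = b.repr v i * z i := by
          rw [h3, b.repr_sum_self]
        have h6 : b.repr (w • v) i = w * b.repr v i := by
          rw [h4, b.repr_sum_self]
        rw [hv, h6] at h5
        linear_combination -h5
      rw [SetLike.mem_coe, ← b.sum_repr v]
      refine Submodule.sum_mem _ fun i _ => ?_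
      rcases mul_eq_zero.1 (h2 i) with h3 | h3
      · have h4 : z i ∈ Zs := by
          rw [sub_eq_zero.1 h3]
          exact hw
        exact Submodule.smul_mem _ _ (subset_gen _ _ (Or.inl ⟨⟨i, h4⟩, rfl⟩))
      · rw [h3, zero_smul]
        exact Submodule.zero_mem _
    · refine gen_le (gen_stable _ _) ?_
      rintro v (⟨i, rfl⟩ | ⟨i, rfl⟩)
      · exact subset_gen _ _ ⟨z i, i.2, hb i⟩
      · refine subset_gen _ _ ⟨z (σ i.1), hσZ _ i.2, ?_⟩
        show (γ : Module.End ℂ V) ((ψ (b i) (b (σ i)))⁻¹ • b (σ i)) = _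
        rw [map_smul, hb, smul_comm]
  rw [hgen]
  refine ⟨isCompl_orth hnd halt hsim hss' hef hD, fun X => ?_⟩
  exact fibre hnd halt hbr hsim hss' hef hD hTL X

end torus

end Pool.Agent.Helper59.RL
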